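import Mathlib

/-
Partitions of the positive integers and Egyptian fractions (Hahn).

Theorem.  Every partition of the positive integers into finitely many classes has a class which
represents every positive rational number as a finite sum of distinct unit fractions.

Sketch of the proof.  (1) For every colouring of the positive integers with `r` colours there is a
monochromatic finite set of (large) integers whose reciprocals sum to 1.  We use integers which are a
product of one prime from each of `k` small blocks of primes, each of reciprocal sum about `1.03`,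
and of one prime from each of three large blocks, of reciprocal sum at least `1/120`.  Their total
weight `∑ 1/n` is at least `1.02^k/120^3`, so one colour class has weight at least 3.  We trim it
to a set `C` of weight in `[2 - 1/N, 2)` such that for every prime `q` dividing an element of `C` the
multiples of `q` in `C` have weight at least `τ/q`, `τ = 1/(4(k+3))`.  The number of subsets of `C`
with integral weight is `(1/P) ∑_h ∏_{n ∈ C} (1 + e(h/n))`, `P` the product of the primes dividing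
the elements of `C`.  The `h` close to a multiple of `P` have nonnegative real part.  For the others,
if the elements of `C` without a multiple within distance `K` of `h` had weight less than
`τ/(2 max q)`, then for every `q` some integer `x_q` near `h` would be divisible by `q` and by most
of the primes (in the sense of reciprocals) of most of the small blocks; two such integers have too
many common prime divisors not to be equal, hence their common value is a multiple of `P`, a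
contradiction.  So the product is tiny and some nonempty subset has integral weight, i.e. weight 1.
(2) Dilating the colouring by `D` gives disjoint monochromatic representations of `1/D` with
arbitrarily large denominators; taking `D = n!` and using the pigeonhole principle twice gives one
colour representing all positive rationals.
-/

set_option autoImplicit false

open Finset

namespace Pool.Agent.Results.MP_54bae5_nt.EveryPartitionHasUniversalClass

/-- `q` is the sum of the reciprocals of the elements of a finite nonempty subset of `A` -/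
def Rep (A : Set ℕ) (q : ℚ) : Prop :=
  ∃ F : Finset ℕ, F.Nonempty ∧ (F : Set ℕ) ⊆ A ∧ q = ∑ a ∈ F, 1 / (a : ℚ)

/-- `C` is a partition of the set of positive integers into `k` classes -/
structure IsPartition {k : ℕ} (C : Fin k → Set ℕ) : Prop where
  cover : (⋃ i, C i) = {n : ℕ | 0 < n}
  disj : ∀ i j, i ≠ j → Disjoint (C i) (C j)

/-- the partition is `s`-good: at most `s` of its classes suffice to represent every positive
rational by one of them -/
def Good (s : ℕ) {k : ℕ} (C : Fin k → Set ℕ) : Prop :=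
  ∃ I : Finset (Fin k), I.card ≤ s ∧ ∀ q : ℚ, 0 < q → ∃ i ∈ I, Rep (C i) q

/-- `s` is admissible: every finite partition of the positive integers is `s`-good -/
def Admissible (s : ℕ) : Prop :=
  ∀ (k : ℕ) (C : Fin k → Set ℕ), IsPartition C → Good s C

/-! ### auxiliary definitions -/

/-- harmonic weight of a finite set of positive integers -/
noncomputable def w (A : Finset ℕ) : ℝ := ∑ n ∈ A, (1 : ℝ) / n

/-- the integer attached to a choice of primes -/
def nn {k : ℕ} (g : (Fin k → ℕ) × (Fin 3 → ℕ)) : ℕ := (∏ i, g.1 i) * ∏ j, g.2 j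

/-- the structured set of integers: products of one prime from each block -/
def XX {k : ℕ} (P : Fin k → Finset ℕ) (Q : Fin 3 → Finset ℕ) : Finset ℕ :=
  ((Fintype.piFinset P) ×ˢ (Fintype.piFinset Q)).image nn

/-- the blocks are pairwise disjoint sets of primes -/
structure Sys (k : ℕ) (P : Fin k → Finset ℕ) (Q : Fin 3 → Finset ℕ) : Prop where
  primeP : ∀ i, ∀ p ∈ P i, p.Prime
  primeQ : ∀ j, ∀ q ∈ Q j, q.Prime
  disjP : ∀ i i', i ≠ i' → Disjoint (P i) (P i')
  disjQ : ∀ j j', j ≠ j' → Disjoint (Q j) (Q j')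
  disjPQ : ∀ i j, Disjoint (P i) (Q j)

/-- the exponential sum attached to a finite set of integers -/
noncomputable def FF (C : Finset ℕ) (h : ℤ) : ℂ :=
  ∏ n ∈ C, (1 + Complex.exp (2 * Real.pi * Complex.I * ((h : ℂ) / (n : ℂ))))

/-- `s_i(x)`: weight of the primes of a block dividing `x` -/
noncomputable def sd (A : Finset ℕ) (x : ℤ) : ℝ := w (A.filter (fun p => (p : ℤ) ∣ x))

namespace L1

theorem w_nonneg (A : Finset ℕ) : 0 ≤ w A := Finset.sum_nonneg fun n _ => by positivity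

theorem w_mono {A B : Finset ℕ} (h : A ⊆ B) : w A ≤ w B :=
  Finset.sum_le_sum_of_subset_of_nonneg h fun n _ _ => by positivity

theorem w_erase {A : Finset ℕ} {n : ℕ} (h : n ∈ A) : w (A.erase n) = w A - 1 / n := by
  unfold w
  rw [← Finset.add_sum_erase _ _ h]
  ring

theorem w_insert {A : Finset ℕ} {n : ℕ} (h : n ∉ A) : w (insert n A) = w A + 1 / n := by
  unfold w
  rw [Finset.sum_insert h]
  ring

theorem inv_le_aux {N n : ℕ} (hN : 0 < N) (h : N ≤ n) : (1 : ℝ) / n ≤ 1 / N := by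
  apply one_div_le_one_div_of_le
  · exact_mod_cast hN
  · exact_mod_cast h

/-- greedy choice of a subset of prescribed weight -/
theorem exists_subset_weight (U : Finset ℕ) (N : ℕ) (hN : 0 < N) (hU : ∀ n ∈ U, N ≤ n)
    (s : ℝ) (hs : 0 ≤ s) (hsU : s ≤ w U) : ∃ V ⊆ U, s ≤ w V ∧ w V ≤ s + 1 / N := by
  classical
  obtain ⟨V, hV, hmin⟩ := Finset.exists_min_image (U.powerset.filter fun V => s ≤ w V)
    (fun V => V.card) ⟨U, by simp [hsU]⟩
  simp only [Finset.mem_filter, Finset.mem_powerset] at hV hmin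
  refine ⟨V, hV.1, hV.2, ?_⟩
  rcases V.eq_empty_or_nonempty with h | ⟨n, hn⟩
  · rw [h]
    simp only [w, Finset.sum_empty]
    positivity
  · by_contra hcon
    push Not at hcon
    have h1 : s ≤ w (V.erase n) := by
      rw [w_erase hn]
      have := inv_le_aux hN (hU n (hV.1 hn))
      linarith
    have h2 := hmin (V.erase n) ⟨(Finset.erase_subset _ _).trans hV.1, h1⟩
    have h3 := Finset.card_erase_lt_of_mem hn
    omega

/-- greedy extension of a set to one of weight just below 2 -/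
theorem exists_between_weight (B C₀ : Finset ℕ) (hCB : C₀ ⊆ B) (N : ℕ) (hN : 0 < N)
    (hB : ∀ n ∈ B, N ≤ n) (h0 : w C₀ < 2) (h2 : 2 ≤ w B) :
    ∃ C, C₀ ⊆ C ∧ C ⊆ B ∧ 2 - 1 / (N : ℝ) ≤ w C ∧ w C < 2 := by
  classical
  obtain ⟨C, hC, hmax⟩ := Finset.exists_max_image (B.powerset.filter fun C => C₀ ⊆ C ∧ w C < 2)
    (fun C => C.card) ⟨C₀, by simp [hCB, h0]⟩
  simp only [Finset.mem_filter, Finset.mem_powerset] at hC hmax
  refine ⟨C, hC.2.1, hC.1, ?_, hC.2.2⟩
  have hne : ∃ n ∈ B, n ∉ C := by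
    by_contra hcon
    push Not at hcon
    have := w_mono hcon
    linarith [hC.2.2]
  obtain ⟨n, hnB, hnC⟩ := hne
  by_contra hcon
  push Not at hcon
  have h1 : w (insert n C) < 2 := by
    rw [w_insert hnC]
    have := inv_le_aux hN (hB n hnB)
    linarith
  have h3 := hmax (insert n C) ⟨Finset.insert_subset hnB hC.1,
    hC.2.1.trans (Finset.subset_insert _ _), h1⟩
  rw [Finset.card_insert_of_notMem hnC] at h3
  omega

theorem w_biUnion_le (I : Finset ℕ) (V : ℕ → Finset ℕ) : w (I.biUnion V) ≤ ∑ q ∈ I, w (V q) := by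
  classical
  induction I using Finset.induction_on with
  | empty => simp [w]
  | insert a I ha ih =>
    rw [Finset.biUnion_insert, Finset.sum_insert ha]
    have h : w (V a ∪ I.biUnion V) ≤ w (V a) + w (I.biUnion V) := by
      have := Finset.sum_union_inter (s₁ := V a) (s₂ := I.biUnion V) (f := fun n : ℕ => (1:ℝ) / n)
      have h2 := w_nonneg (V a ∩ I.biUnion V)
      unfold w at *
      linarith
    linarith

/-- pruning and trimming -/
theorem trim (A₀ Pr : Finset ℕ) (τ : ℝ) (N : ℕ) (hN : 0 < N) (hA : ∀ n ∈ A₀, N ≤ n)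
    (hτ : 0 ≤ τ) (hpos : ∀ q ∈ Pr, 0 < q) (hT : τ * w Pr + (Pr.card : ℝ) / N ≤ 1)
    (hw : 3 ≤ w A₀) :
    ∃ C ⊆ A₀, 2 - 1 / (N : ℝ) ≤ w C ∧ w C < 2 ∧
      ∀ q ∈ Pr, (∃ n ∈ C, q ∣ n) → τ / q ≤ w (C.filter (fun n => q ∣ n)) := by
  classical
  let Q : Finset ℕ → Finset ℕ := fun B => Pr.filter fun q => ∃ n ∈ B, q ∣ n
  have hQP : ∀ B, Q B ⊆ Pr := fun B => Finset.filter_subset _ _
  obtain ⟨B, hB, hmax⟩ := Finset.exists_max_image A₀.powerset
    (fun B => w B - τ * w (Q B)) ⟨A₀, by simp⟩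
  simp only [Finset.mem_powerset] at hB hmax
  have hcard : (0:ℝ) ≤ (Pr.card : ℝ) / N := by positivity
  have hreg : ∀ q ∈ Q B, τ / q ≤ w (B.filter (fun n => q ∣ n)) := by
    intro q hq
    have hqP : q ∈ Pr := hQP B hq
    have h1 := hmax (B.filter fun n => ¬ q ∣ n) ((Finset.filter_subset _ _).trans hB)
    have h2 : Q (B.filter fun n => ¬ q ∣ n) ⊆ (Q B).erase q := by
      intro q' hq'
      simp only [Q, Finset.mem_filter, Finset.mem_erase] at hq' ⊢
      obtain ⟨h3, n, ⟨h4, h5⟩, h6⟩ := hq'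
      refine ⟨?_, h3, n, h4, h6⟩
      rintro rfl
      exact h5 h6
    have h3 := w_mono h2
    rw [w_erase hq] at h3
    have h4 : w (B.filter fun n => q ∣ n) + w (B.filter fun n => ¬ q ∣ n) = w B :=
      Finset.sum_filter_add_sum_filter_not B (fun n => q ∣ n) _
    have h5 : τ * w (Q (B.filter fun n => ¬ q ∣ n)) ≤ τ * (w (Q B) - 1 / q) :=
      mul_le_mul_of_nonneg_left h3 hτ
    have h6 : τ * (w (Q B) - 1 / q) = τ * w (Q B) - τ / q := by ring
    linarith
  have hwB : 2 ≤ w B := by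
    have h1 := hmax A₀ subset_rfl
    have h2 : τ * w (Q A₀) ≤ τ * w Pr := mul_le_mul_of_nonneg_left (w_mono (hQP _)) hτ
    have h3 : 0 ≤ τ * w (Q B) := mul_nonneg hτ (w_nonneg _)
    linarith
  have hex : ∀ q : ℕ, ∃ V : Finset ℕ, q ∈ Q B →
      (V ⊆ B.filter (fun n => q ∣ n) ∧ τ / q ≤ w V ∧ w V ≤ τ / q + 1 / N) := by
    intro q
    by_cases hq : q ∈ Q B
    · obtain ⟨V, hV1, hV2, hV3⟩ := exists_subset_weight (B.filter fun n => q ∣ n) N hN
        (fun n hn => hA n (hB (Finset.mem_of_mem_filter n hn))) (τ / q) (by positivity) (hreg q hq)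
      exact ⟨V, fun _ => ⟨hV1, hV2, hV3⟩⟩
    · exact ⟨∅, fun h => absurd h hq⟩
  choose V hV using hex
  set C₀ := (Q B).biUnion V with hC₀
  have hC0B : C₀ ⊆ B := by
    rw [hC₀, Finset.biUnion_subset]
    intro q hq
    exact (hV q hq).1.trans (Finset.filter_subset _ _)
  have hC0w : w C₀ ≤ 1 := by
    calc w C₀ ≤ ∑ q ∈ Q B, w (V q) := w_biUnion_le _ _
      _ ≤ ∑ q ∈ Q B, (τ / q + 1 / N) := Finset.sum_le_sum fun q hq => (hV q hq).2.2
      _ = τ * w (Q B) + (Q B).card * (1 / N) := by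
          rw [Finset.sum_add_distrib, Finset.sum_const, nsmul_eq_mul]
          congr 1
          unfold w
          rw [Finset.mul_sum]
          refine Finset.sum_congr rfl fun q _ => ?_
          ring
      _ ≤ τ * w Pr + (Pr.card : ℝ) / N := by
          refine add_le_add (mul_le_mul_of_nonneg_left (w_mono (hQP _)) hτ) ?_
          rw [mul_one_div]
          refine div_le_div_of_nonneg_right ?_ (by positivity)
          exact_mod_cast Finset.card_le_card (hQP B)
      _ ≤ 1 := hT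
  obtain ⟨C, h1, h2, h3, h4⟩ := exists_between_weight B C₀ hC0B N hN (fun n hn => hA n (hB hn))
    (by linarith) hwB
  refine ⟨C, h2.trans hB, h3, h4, ?_⟩
  intro q hq ⟨n, hn, hqn⟩
  have hqQ : q ∈ Q B := by
    simp only [Q, Finset.mem_filter]
    exact ⟨hq, n, h2 hn, hqn⟩
  refine (hV q hqQ).2.1.trans (w_mono ?_)
  intro m hm
  have h5 := (hV q hqQ).1 hm
  rw [Finset.mem_filter] at h5 ⊢
  exact ⟨h1 (Finset.mem_biUnion.2 ⟨q, hqQ, hm⟩), h5.2⟩

end L1

open L1 (exists_subset_weight trim)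

namespace L2

theorem prime_dvd_nn {k : ℕ} {P : Fin k → Finset ℕ} {Q : Fin 3 → Finset ℕ} (hS : Sys k P Q)
    {f : Fin k → ℕ} {e : Fin 3 → ℕ} (hf : f ∈ Fintype.piFinset P) (he : e ∈ Fintype.piFinset Q)
    {q : ℕ} (hq : q.Prime) (hqn : q ∣ nn (f, e)) : (∃ i, q = f i) ∨ (∃ j, q = e j) := by
  rw [Fintype.mem_piFinset] at hf he
  unfold nn at hqn
  rcases (Nat.Prime.dvd_mul hq).1 hqn with h | h
  · left
    obtain ⟨i, _, hi⟩ := (Prime.dvd_finset_prod_iff (Nat.prime_iff.1 hq) _).1 h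
    exact ⟨i, (Nat.prime_dvd_prime_iff_eq hq (hS.primeP i _ (hf i))).1 hi⟩
  · right
    obtain ⟨j, _, hj⟩ := (Prime.dvd_finset_prod_iff (Nat.prime_iff.1 hq) _).1 h
    exact ⟨j, (Nat.prime_dvd_prime_iff_eq hq (hS.primeQ j _ (he j))).1 hj⟩

theorem eq_of_dvd_left {k : ℕ} {P : Fin k → Finset ℕ} {Q : Fin 3 → Finset ℕ} (hS : Sys k P Q)
    {f : Fin k → ℕ} {e : Fin 3 → ℕ} (hf : f ∈ Fintype.piFinset P) (he : e ∈ Fintype.piFinset Q)
    {i : Fin k} {q : ℕ} (hq : q ∈ P i) (hqn : q ∣ nn (f, e)) : f i = q := by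
  rcases prime_dvd_nn hS hf he (hS.primeP i q hq) hqn with ⟨i2, h⟩ | ⟨j, h⟩
  · rw [Fintype.mem_piFinset] at hf he
    by_cases hi : i = i2
    · rw [hi, h]
    · exfalso
      have := hf i2
      rw [← h] at this
      exact Finset.disjoint_left.1 (hS.disjP i i2 hi) hq this
  · exfalso
    rw [Fintype.mem_piFinset] at hf he
    have := he j
    rw [← h] at this
    exact Finset.disjoint_left.1 (hS.disjPQ i j) hq this

theorem eq_of_dvd_right {k : ℕ} {P : Fin k → Finset ℕ} {Q : Fin 3 → Finset ℕ} (hS : Sys k P Q)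
    {f : Fin k → ℕ} {e : Fin 3 → ℕ} (hf : f ∈ Fintype.piFinset P) (he : e ∈ Fintype.piFinset Q)
    {j : Fin 3} {q : ℕ} (hq : q ∈ Q j) (hqn : q ∣ nn (f, e)) : e j = q := by
  rcases prime_dvd_nn hS hf he (hS.primeQ j q hq) hqn with ⟨i, h⟩ | ⟨j2, h⟩
  · exfalso
    rw [Fintype.mem_piFinset] at hf he
    have := hf i
    rw [← h] at this
    exact Finset.disjoint_left.1 (hS.disjPQ i j) this hq
  · rw [Fintype.mem_piFinset] at hf he
    by_cases hj : j = j2
    · rw [hj, h]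
    · exfalso
      have := he j2
      rw [← h] at this
      exact Finset.disjoint_left.1 (hS.disjQ j j2 hj) hq this

theorem nn_injOn {k : ℕ} {P : Fin k → Finset ℕ} {Q : Fin 3 → Finset ℕ} (hS : Sys k P Q) :
    Set.InjOn (nn (k := k)) ((Fintype.piFinset P) ×ˢ (Fintype.piFinset Q) : Finset _) := by
  rintro ⟨f, e⟩ h1 ⟨f2, e2⟩ h2 heq
  rw [Finset.mem_coe, Finset.mem_product] at h1 h2
  obtain ⟨hf, he⟩ := h1
  obtain ⟨hf2, he2⟩ := h2
  simp only at hf he hf2 he2
  have hf2' := Fintype.mem_piFinset.1 hf2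
  have he2' := Fintype.mem_piFinset.1 he2
  have e1 : f = f2 := by
    funext i
    apply eq_of_dvd_left hS hf he (hf2' i)
    rw [heq]
    exact Dvd.dvd.mul_right (Finset.dvd_prod_of_mem f2 (Finset.mem_univ i)) _
  have e3 : e = e2 := by
    funext j
    apply eq_of_dvd_right hS hf he (he2' j)
    rw [heq]
    exact Dvd.dvd.mul_left (Finset.dvd_prod_of_mem e2 (Finset.mem_univ j)) _
  rw [e1, e3]

theorem w_XX {k : ℕ} {P : Fin k → Finset ℕ} {Q : Fin 3 → Finset ℕ} (hS : Sys k P Q) :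
    w (XX P Q) = (∏ i, w (P i)) * ∏ j, w (Q j) := by
  unfold w XX
  rw [Finset.sum_image (nn_injOn hS), Finset.sum_product, Finset.prod_univ_sum,
    Finset.prod_univ_sum, Finset.sum_mul_sum]
  apply Finset.sum_congr rfl
  intro f _
  apply Finset.sum_congr rfl
  intro e _
  unfold nn
  push_cast
  rw [Finset.prod_div_distrib, Finset.prod_div_distrib, Finset.prod_const_one,
    Finset.prod_const_one, div_mul_div_comm, one_mul]

end L2

open L2 (prime_dvd_nn eq_of_dvd_left eq_of_dvd_right w_XX)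

namespace L3

/-- integers with a multiple in a short interval: bound of their weight by products of local sums -/
theorem lemmaA {k : ℕ} (P' : Fin k → Finset ℕ) (Q' : Fin 3 → Finset ℕ) (C' : Finset ℕ)
    (hC : ∀ n ∈ C', ∃ f ∈ Fintype.piFinset P', ∃ e ∈ Fintype.piFinset Q',
      n = (∏ i, f i) * ∏ j, e j)
    (hP : ∀ i, ∀ p ∈ P' i, 0 < p) (hQ : ∀ j, ∀ q ∈ Q' j, 0 < q) (h : ℤ) (K : ℕ)
    (hK : ∀ e ∈ Fintype.piFinset Q', 2 * K < ∏ j, e j) (M : ℝ) (hM0 : 0 ≤ M)
    (hdiv : ∀ n ∈ C', ∃ x : ℤ, |x - h| ≤ K ∧ (n : ℤ) ∣ x)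
    (hM : ∀ x : ℤ, |x - h| ≤ K → (∃ n ∈ C', (n : ℤ) ∣ x) →
      ∏ i, w ((P' i).filter (fun p => (p : ℤ) ∣ x)) ≤ M) :
    w C' ≤ (∏ j, w (Q' j)) * M := by
  classical
  obtain ⟨val, hval⟩ : ∃ val : (Fin k → ℕ) × (Fin 3 → ℕ) → ℕ, ∀ g, val g = (∏ i, g.1 i) * ∏ j, g.2 j :=
    ⟨_, fun _ => rfl⟩
  obtain ⟨T, hT⟩ : ∃ T, T = (Fintype.piFinset P' ×ˢ Fintype.piFinset Q').filter
      (fun g => val g ∈ C') := ⟨_, rfl⟩
  have h1 : w C' ≤ ∑ g ∈ T, (1 : ℝ) / (val g : ℕ) := by
    have h2 : ∑ y ∈ C', ∑ x ∈ T with val x = y, (1 : ℝ) / (val x : ℕ)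
        = ∑ g ∈ T, (1 : ℝ) / (val g : ℕ) :=
      Finset.sum_fiberwise_of_maps_to (fun x hx => by
        rw [hT, Finset.mem_filter] at hx
        exact hx.2) _
    rw [← h2]
    unfold w
    refine Finset.sum_le_sum fun n hn => ?_
    obtain ⟨f, hf, e, he, hfe⟩ := hC n hn
    have hv : val (f, e) = n := by rw [hval, hfe]
    have h3 : (f, e) ∈ T.filter (fun x => val x = n) := by
      rw [Finset.mem_filter, hT, Finset.mem_filter, Finset.mem_product]
      exact ⟨⟨⟨hf, he⟩, by rw [hv]; exact hn⟩, hv⟩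
    have h4 := Finset.single_le_sum (f := fun x => (1 : ℝ) / (val x : ℕ))
      (s := T.filter (fun x => val x = n)) (fun x _ => by positivity) h3
    simp only [hv] at h4
    exact h4
  refine h1.trans ?_
  rw [hT, Finset.sum_filter, Finset.sum_product_right]
  have h5 : ∀ e ∈ Fintype.piFinset Q', ∑ f ∈ Fintype.piFinset P',
      (if val (f, e) ∈ C' then (1 : ℝ) / (val (f, e) : ℕ) else 0) ≤ (∏ j, (1 : ℝ) / (e j : ℕ)) * M := by
    intro e he
    have hnn : 0 ≤ (∏ j, (1 : ℝ) / (e j : ℕ)) := Finset.prod_nonneg fun j _ => by positivity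
    by_cases hex : ∃ f0 ∈ Fintype.piFinset P', val (f0, e) ∈ C'
    · obtain ⟨f0, hf0, hf0C⟩ := hex
      obtain ⟨x0, hx0, hdx0⟩ := hdiv _ hf0C
      have hdd : ∀ f : Fin k → ℕ, ((∏ j, e j : ℕ) : ℤ) ∣ (val (f, e) : ℕ) := by
        intro f
        rw [hval]
        exact Int.natCast_dvd_natCast.2 (Dvd.intro_left _ rfl)
      rw [← Finset.sum_filter]
      have hsub : (Fintype.piFinset P').filter (fun f => val (f, e) ∈ C') ⊆
          Fintype.piFinset (fun i => (P' i).filter (fun p : ℕ => (p : ℤ) ∣ x0)) := by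
        intro f hf
        rw [Finset.mem_filter, Fintype.mem_piFinset] at hf
        obtain ⟨hf1, hf2⟩ := hf
        obtain ⟨x, hx, hdx⟩ := hdiv _ hf2
        have hxx : x - x0 = 0 := by
          refine Int.eq_zero_of_abs_lt_dvd (m := ((∏ j, e j : ℕ) : ℤ))
            (dvd_sub ((hdd f).trans hdx) ((hdd f0).trans hdx0)) ?_
          have h6 := hK e he
          have h7 : ((2 * K : ℕ) : ℤ) < ((∏ j, e j : ℕ) : ℤ) := by exact_mod_cast h6
          push_cast at h7 ⊢
          rw [abs_le] at hx hx0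
          rw [abs_lt]
          constructor <;> linarith
        have hxe : x = x0 := sub_eq_zero.1 hxx
        rw [Fintype.mem_piFinset]
        intro i
        rw [Finset.mem_filter]
        refine ⟨hf1 i, ?_⟩
        rw [← hxe]
        refine dvd_trans ?_ hdx
        rw [hval]
        refine Int.natCast_dvd_natCast.2 (Dvd.dvd.mul_right ?_ _)
        exact Finset.dvd_prod_of_mem f (Finset.mem_univ i)
      have h8 : ∀ f, (1 : ℝ) / (val (f, e) : ℕ) = (∏ j, (1 : ℝ) / (e j : ℕ)) *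
          ∏ i, (1 : ℝ) / (f i : ℕ) := by
        intro f
        rw [hval]
        push_cast
        simp only [one_div, Finset.prod_inv_distrib]
        rw [mul_inv, mul_comm]
      calc ∑ f ∈ (Fintype.piFinset P').filter (fun f => val (f, e) ∈ C'), (1 : ℝ) / (val (f, e) : ℕ)
          ≤ ∑ f ∈ Fintype.piFinset (fun i => (P' i).filter (fun p : ℕ => (p : ℤ) ∣ x0)),
              (1 : ℝ) / (val (f, e) : ℕ) :=
            Finset.sum_le_sum_of_subset_of_nonneg hsub fun _ _ _ => by positivity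
        _ = (∏ j, (1 : ℝ) / (e j : ℕ)) * ∑ f ∈ Fintype.piFinset (fun i => (P' i).filter
              (fun p : ℕ => (p : ℤ) ∣ x0)), ∏ i, (1 : ℝ) / (f i : ℕ) := by
            rw [Finset.mul_sum]
            exact Finset.sum_congr rfl fun f _ => h8 f
        _ = (∏ j, (1 : ℝ) / (e j : ℕ)) * ∏ i, w ((P' i).filter (fun p : ℕ => (p : ℤ) ∣ x0)) := by
            unfold w
            rw [Finset.prod_univ_sum]
        _ ≤ (∏ j, (1 : ℝ) / (e j : ℕ)) * M :=
            mul_le_mul_of_nonneg_left (hM x0 hx0 ⟨_, hf0C, hdx0⟩) hnn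
    · push Not at hex
      rw [Finset.sum_eq_zero]
      · exact mul_nonneg hnn hM0
      · intro f hf
        rw [if_neg (hex f hf)]
  calc ∑ e ∈ Fintype.piFinset Q', ∑ f ∈ Fintype.piFinset P',
      (if val (f, e) ∈ C' then (1 : ℝ) / (val (f, e) : ℕ) else 0)
      ≤ ∑ e ∈ Fintype.piFinset Q', (∏ j, (1 : ℝ) / (e j : ℕ)) * M := Finset.sum_le_sum h5
    _ = (∏ j, w (Q' j)) * M := by
      unfold w
      rw [← Finset.sum_mul, Finset.prod_univ_sum]

end L3

open L3 (lemmaA)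

namespace L4

theorem FF_zero (C : Finset ℕ) : FF C 0 = 2 ^ C.card := by
  unfold FF
  have : ∀ n ∈ C, (1 + Complex.exp (2 * Real.pi * Complex.I * (((0 : ℤ) : ℂ) / (n : ℂ)))) = 2 := by
    intro n _
    simp
    norm_num
  rw [Finset.prod_congr rfl this, Finset.prod_const]

/-- periodicity -/
theorem FF_periodic (C : Finset ℕ) (P : ℕ) (hdvd : ∀ n ∈ C, n ∣ P) (hpos : ∀ n ∈ C, 0 < n)
    (h j : ℤ) : FF C (h + P * j) = FF C h := by
  unfold FF
  apply Finset.prod_congr rfl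
  intro n hn
  congr 1
  obtain ⟨q, hq⟩ := hdvd n hn
  have hn0 : (n : ℂ) ≠ 0 := by
    have := hpos n hn
    exact_mod_cast this.ne'
  have e : 2 * (Real.pi : ℂ) * Complex.I * (((h + P * j : ℤ) : ℂ) / (n : ℂ)) =
      2 * (Real.pi : ℂ) * Complex.I * ((h : ℂ) / (n : ℂ)) + ((q * j : ℤ) : ℂ) * (2 * Real.pi * Complex.I) := by
    rw [hq]
    push_cast
    field_simp
  rw [e, Complex.exp_add, Complex.exp_int_mul_two_pi_mul_I, mul_one]

theorem one_add_exp (u : ℝ) : 1 + Complex.exp (2 * Real.pi * Complex.I * (u : ℂ)) =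
    ((2 * Real.cos (Real.pi * u) : ℝ) : ℂ) * Complex.exp (((Real.pi * u : ℝ) : ℂ) * Complex.I) := by
  have e1 : 2 * (Real.pi : ℂ) * Complex.I * (u : ℂ) = ((Real.pi * u : ℝ) : ℂ) * Complex.I +
      ((Real.pi * u : ℝ) : ℂ) * Complex.I := by
    push_cast
    ring
  rw [e1, Complex.exp_add]
  have e2 : ((2 * Real.cos (Real.pi * u) : ℝ) : ℂ) = Complex.exp (((Real.pi * u : ℝ) : ℂ) * Complex.I) +
      Complex.exp (-((Real.pi * u : ℝ) : ℂ) * Complex.I) := by
    rw [Complex.ofReal_mul, Complex.ofReal_cos]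
    rw [Complex.cos]
    push_cast
    ring
  rw [e2, add_mul, ← Complex.exp_add (-((Real.pi * u : ℝ) : ℂ) * Complex.I)]
  rw [show -((Real.pi * u : ℝ) : ℂ) * Complex.I + ((Real.pi * u : ℝ) : ℂ) * Complex.I = 0 by ring,
    Complex.exp_zero]
  ring

theorem FF_polar (C : Finset ℕ) (h : ℤ) : FF C h =
    ((∏ n ∈ C, 2 * Real.cos (Real.pi * ((h : ℝ) / n)) : ℝ) : ℂ) *
      Complex.exp (((Real.pi * (h * w C) : ℝ) : ℂ) * Complex.I) := by
  unfold FF
  have h1 : ∀ n ∈ C, (1 + Complex.exp (2 * Real.pi * Complex.I * ((h : ℂ) / (n : ℂ)))) =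
      ((2 * Real.cos (Real.pi * ((h : ℝ) / n)) : ℝ) : ℂ) *
        Complex.exp (((Real.pi * ((h : ℝ) / n) : ℝ) : ℂ) * Complex.I) := by
    intro n _
    have := one_add_exp ((h : ℝ) / n)
    rw [← this]
    push_cast
    rfl
  rw [Finset.prod_congr rfl h1, Finset.prod_mul_distrib, ← Complex.exp_sum, Complex.ofReal_prod]
  congr 2
  rw [← Finset.sum_mul]
  congr 1
  unfold w
  push_cast
  rw [Finset.mul_sum, Finset.mul_sum]
  apply Finset.sum_congr rfl
  intro n _
  ring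

/-- major arcs -/
theorem FF_major (C : Finset ℕ) (N K : ℕ) (hN0 : 0 < N) (hN : ∀ n ∈ C, N ≤ n) (hK : 4 * K ≤ N)
    (hw1 : 2 - 1 / (N : ℝ) ≤ w C) (hw2 : w C < 2) (h : ℤ) (hh : |h| ≤ K) : 0 ≤ (FF C h).re := by
  have hpi := Real.pi_pos
  have hN0' : (0 : ℝ) < N := by exact_mod_cast hN0
  have hK' : 4 * (K : ℝ) ≤ N := by exact_mod_cast hK
  have hh' : |(h : ℝ)| ≤ K := by exact_mod_cast hh
  have hKN : (K : ℝ) / N ≤ 1 / 4 := by
    rw [div_le_div_iff₀ hN0' (by norm_num)]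
    linarith
  have hcos : ∀ x : ℝ, |x| ≤ 1 / 4 → 0 ≤ Real.cos (Real.pi * x) := by
    intro x hx
    rw [abs_le] at hx
    apply Real.cos_nonneg_of_mem_Icc
    constructor
    · nlinarith
    · nlinarith
  rw [FF_polar, Complex.re_ofReal_mul, Complex.exp_ofReal_mul_I_re]
  apply mul_nonneg
  · apply Finset.prod_nonneg
    intro n hn
    have hnN : (N : ℝ) ≤ n := by exact_mod_cast hN n hn
    have : |(h : ℝ) / n| ≤ 1 / 4 := by
      rw [abs_div, abs_of_pos (by linarith : (0 : ℝ) < n)]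
      calc |(h : ℝ)| / n ≤ K / N := by
            apply div_le_div₀ (by positivity) hh' hN0' hnN
        _ ≤ 1 / 4 := hKN
    have := hcos _ this
    positivity
  · have e : Real.pi * (h * w C) = Real.pi * (h * (w C - 2)) + h * (2 * Real.pi) := by ring
    rw [e, Real.cos_add_int_mul_two_pi]
    apply hcos
    rw [abs_mul]
    have h1 : |w C - 2| ≤ 1 / N := by
      rw [abs_le]
      constructor
      · linarith
      · have : 0 < 1 / (N : ℝ) := by positivity
        linarith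
    calc |(h : ℝ)| * |w C - 2| ≤ K * (1 / N) := mul_le_mul hh' h1 (abs_nonneg _) (by positivity)
      _ = K / N := by ring
      _ ≤ 1 / 4 := hKN

theorem w_nonneg (S : Finset ℕ) : 0 ≤ w S := by
  unfold w
  positivity

theorem FF_expand (C : Finset ℕ) (h : ℕ) : FF C (h : ℤ) =
    ∑ S ∈ C.powerset, Complex.exp (2 * Real.pi * Complex.I * (w S : ℂ)) ^ h := by
  unfold FF
  rw [Finset.prod_one_add]
  apply Finset.sum_congr rfl
  intro S _
  rw [← Complex.exp_sum, ← Complex.exp_nat_mul]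
  congr 1
  unfold w
  push_cast
  rw [← Finset.mul_sum, Finset.mul_sum, Finset.mul_sum, Finset.mul_sum]
  apply Finset.sum_congr rfl
  intro n _
  ring

open Classical in
/-- orthogonality: the number of subsets with integral weight -/
theorem FF_orth (C : Finset ℕ) (P : ℕ) (hP : 0 < P) (hdvd : ∀ n ∈ C, n ∣ P)
    (hpos : ∀ n ∈ C, 0 < n) :
    ∑ h ∈ Finset.range P, FF C (h : ℤ) =
      (P : ℂ) * ((C.powerset.filter (fun S => ∃ m : ℕ, w S = m)).card : ℂ) := by
  simp only [FF_expand]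
  rw [Finset.sum_comm]
  have key : ∀ S ∈ C.powerset, ∑ h ∈ Finset.range P,
      Complex.exp (2 * Real.pi * Complex.I * (w S : ℂ)) ^ h = if ∃ m : ℕ, w S = m then (P : ℂ) else 0 := by
    intro S hS
    rw [Finset.mem_powerset] at hS
    have hPw : ∃ a : ℕ, (P : ℝ) * w S = a := by
      refine ⟨∑ n ∈ S, P / n, ?_⟩
      unfold w
      rw [Finset.mul_sum]
      push_cast
      apply Finset.sum_congr rfl
      intro n hn
      rw [Nat.cast_div (hdvd n (hS hn)) (by
        have := hpos n (hS hn)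
        exact_mod_cast this.ne')]
      ring
    obtain ⟨a, ha⟩ := hPw
    split_ifs with hm
    · obtain ⟨m, hm⟩ := hm
      have e : Complex.exp (2 * Real.pi * Complex.I * (w S : ℂ)) = 1 := by
        rw [hm]
        have : 2 * (Real.pi : ℂ) * Complex.I * (((m : ℝ)) : ℂ) = ((m : ℤ) : ℂ) * (2 * Real.pi * Complex.I) := by
          push_cast
          ring
        rw [this, Complex.exp_int_mul_two_pi_mul_I]
      rw [e]
      simp
    · have hne : Complex.exp (2 * Real.pi * Complex.I * (w S : ℂ)) ≠ 1 := by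
        intro h1
        rw [Complex.exp_eq_one_iff] at h1
        obtain ⟨n, hn⟩ := h1
        have h2 : (2 * (Real.pi : ℂ) * Complex.I) * (w S : ℂ) = (2 * (Real.pi : ℂ) * Complex.I) * (n : ℂ) := by
          rw [hn]
          ring
        have h3 := mul_left_cancel₀ Complex.two_pi_I_ne_zero h2
        have h4 : w S = n := by exact_mod_cast h3
        have h5 : (0 : ℝ) ≤ n := by
          rw [← h4]
          exact w_nonneg S
        have h6 : 0 ≤ n := by exact_mod_cast h5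
        apply hm
        refine ⟨n.toNat, ?_⟩
        rw [h4]
        have h7 : ((n.toNat : ℤ) : ℝ) = (n : ℝ) := by rw [Int.toNat_of_nonneg h6]
        rw [← h7]
        push_cast
        rfl
      have hpow : Complex.exp (2 * Real.pi * Complex.I * (w S : ℂ)) ^ P = 1 := by
        rw [← Complex.exp_nat_mul]
        have : (P : ℂ) * (2 * Real.pi * Complex.I * (w S : ℂ)) = ((a : ℤ) : ℂ) * (2 * Real.pi * Complex.I) := by
          have h8 : (P : ℂ) * (w S : ℂ) = (a : ℂ) := by exact_mod_cast ha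
          push_cast
          rw [← h8]
          ring
        rw [this, Complex.exp_int_mul_two_pi_mul_I]
      rw [geom_sum_eq hne, hpow, sub_self, zero_div]
  rw [Finset.sum_congr rfl key, ← Finset.sum_filter, Finset.sum_const, nsmul_eq_mul, mul_comm]

/-- the circle method -/
theorem circle (C : Finset ℕ) (P N K : ℕ) (hP : 0 < P) (hdvd : ∀ n ∈ C, n ∣ P) (hN0 : 0 < N)
    (hN : ∀ n ∈ C, N ≤ n) (hK : 4 * K ≤ N) (hw1 : 2 - 1 / (N : ℝ) ≤ w C) (hw2 : w C < 2)
    (hminor : ∀ h : ℤ, (∀ j : ℤ, (K : ℤ) < |h - P * j|) →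
      ‖FF C h‖ ≤ 2 ^ C.card / (2 * (P : ℝ)))
    (hcard : 2 * P < 2 ^ C.card) : ∃ S ⊆ C, w S = 1 := by
  classical
  have hpos : ∀ n ∈ C, 0 < n := fun n hn => lt_of_lt_of_le hN0 (hN n hn)
  have hP' : (0 : ℝ) < P := by exact_mod_cast hP
  obtain ⟨T, hT⟩ : ∃ T : ℝ, T = 2 ^ C.card / (2 * (P : ℝ)) := ⟨_, rfl⟩
  have hT0 : 0 ≤ T := by rw [hT]; positivity
  have h1 : ∀ h : ℤ, -T ≤ (FF C h).re := by
    intro h
    by_cases hj : ∃ j : ℤ, |h - P * j| ≤ (K : ℤ)
    · obtain ⟨j, hj⟩ := hj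
      have e : FF C h = FF C (h - P * j) := by
        have := FF_periodic C P hdvd hpos (h - P * j) j
        rwa [sub_add_cancel] at this
      rw [e]
      have := FF_major C N K hN0 hN hK hw1 hw2 (h - P * j) hj
      linarith
    · push Not at hj
      have h2 := hminor h hj
      rw [← hT] at h2
      have h3 := Complex.abs_re_le_norm (FF C h)
      have h4 := neg_abs_le (FF C h).re
      linarith
  have h2 := congrArg Complex.re (FF_orth C P hP hdvd hpos)
  obtain ⟨cnt, hcnt⟩ : ∃ cnt, cnt = (C.powerset.filter (fun S => ∃ m : ℕ, w S = m)).card := ⟨_, rfl⟩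
  rw [← hcnt] at h2
  have h3 : ((P : ℂ) * (cnt : ℂ)).re = (P : ℝ) * cnt := by
    have : (P : ℂ) * (cnt : ℂ) = (((P : ℝ) * cnt : ℝ) : ℂ) := by push_cast; rfl
    rw [this, Complex.ofReal_re]
  rw [h3, Complex.re_sum] at h2
  have h4 : (2 : ℝ) ^ C.card - T * P ≤ ∑ h ∈ Finset.range P, (FF C (h : ℤ)).re := by
    have h0 : (0 : ℕ) ∈ Finset.range P := Finset.mem_range.2 hP
    rw [← Finset.add_sum_erase _ _ h0]
    have e0 : (FF C ((0 : ℕ) : ℤ)).re = 2 ^ C.card := by
      have : FF C ((0 : ℕ) : ℤ) = ((2 ^ C.card : ℝ) : ℂ) := by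
        rw [Nat.cast_zero, FF_zero]
        push_cast
        rfl
      rw [this, Complex.ofReal_re]
    rw [e0]
    have h5 : -(T * P) ≤ ∑ h ∈ (Finset.range P).erase 0, (FF C (h : ℤ)).re := by
      calc -(T * P) ≤ ∑ h ∈ (Finset.range P).erase 0, -T := by
            rw [Finset.sum_const, nsmul_eq_mul]
            have h6 : (((Finset.range P).erase 0).card : ℝ) ≤ P := by
              have := Finset.card_erase_le (s := Finset.range P) (a := 0)
              rw [Finset.card_range] at this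
              exact_mod_cast this
            nlinarith
        _ ≤ _ := Finset.sum_le_sum (fun h _ => h1 h)
    linarith
  have h5 : T * P = 2 ^ C.card / 2 := by
    rw [hT]
    field_simp
  have hcard' : 2 * (P : ℝ) < 2 ^ C.card := by exact_mod_cast hcard
  have h6 : 1 < (cnt : ℝ) := by
    have : (P : ℝ) * 1 < P * cnt := by
      rw [← h2]
      linarith
    exact lt_of_mul_lt_mul_left this hP'.le
  have h7 : 1 < cnt := by exact_mod_cast h6
  rw [hcnt, Finset.one_lt_card] at h7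
  obtain ⟨A, hA, B, hB, hAB⟩ := h7
  have h8 : ∃ S ∈ C.powerset.filter (fun S => ∃ m : ℕ, w S = m), S.Nonempty := by
    by_cases hAe : A.Nonempty
    · exact ⟨A, hA, hAe⟩
    · refine ⟨B, hB, ?_⟩
      rw [Finset.not_nonempty_iff_eq_empty] at hAe
      rw [Finset.nonempty_iff_ne_empty]
      rw [hAe] at hAB
      exact Ne.symm hAB
  obtain ⟨S, hS, hSne⟩ := h8
  rw [Finset.mem_filter, Finset.mem_powerset] at hS
  obtain ⟨hSC, m, hm⟩ := hS
  refine ⟨S, hSC, ?_⟩
  have hS0 : 0 < w S := by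
    unfold w
    apply Finset.sum_pos
    · intro n hn
      have := hpos n (hSC hn)
      positivity
    · exact hSne
  have hS2 : w S < 2 := by
    refine lt_of_le_of_lt ?_ hw2
    unfold w
    apply Finset.sum_le_sum_of_subset_of_nonneg hSC
    intro n _ _
    positivity
  rw [hm] at hS0 hS2 ⊢
  have h9 : 0 < m := by exact_mod_cast hS0
  have h10 : m < 2 := by exact_mod_cast hS2
  have h11 : m = 1 := by omega
  rw [h11]
  norm_num

end L4

open L4 (circle)

namespace L5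

/-- one factor -/
theorem factor_bound (u δ : ℝ) (hδ : 0 ≤ δ) (hu : ∀ a : ℤ, δ ≤ |u - a|) :
    ‖1 + Complex.exp (2 * Real.pi * Complex.I * (u : ℂ))‖ ≤ 2 * Real.exp (-2 * δ ^ 2) := by
  obtain ⟨v, hv⟩ : ∃ v : ℝ, v = u - round u := ⟨_, rfl⟩
  have hv1 : |v| ≤ 1 / 2 := by rw [hv]; exact abs_sub_round u
  have hv2 : δ ≤ |v| := by rw [hv]; exact hu (round u)
  have hπ := Real.pi_pos
  have hsin : 2 * |v| ≤ Real.sin (Real.pi * |v|) := by
    have h1 := Real.mul_le_sin (x := Real.pi * |v|) (by positivity) (by nlinarith)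
    have h2 : 2 / Real.pi * (Real.pi * |v|) = 2 * |v| := by field_simp
    linarith
  have hsin2 : 4 * δ ^ 2 ≤ Real.sin (Real.pi * |v|) ^ 2 := by
    have h1 : 0 ≤ |v| := abs_nonneg v
    nlinarith
  have hcos : Real.cos (2 * Real.pi * u) = 1 - 2 * Real.sin (Real.pi * |v|) ^ 2 := by
    have h1 : Real.cos (2 * Real.pi * u) = Real.cos (2 * (Real.pi * v)) := by
      have : 2 * Real.pi * u = 2 * (Real.pi * v) + (round u : ℤ) * (2 * Real.pi) := by
        rw [hv]; ring
      rw [this, Real.cos_add_int_mul_two_pi]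
    have h2 : Real.cos (2 * (Real.pi * v)) = Real.cos (2 * (Real.pi * |v|)) := by
      rcases abs_choice v with h | h
      · rw [h]
      · rw [h, ← Real.cos_neg]; congr 1; ring
    rw [h1, h2, Real.cos_two_mul, Real.cos_sq']
    ring
  have hnorm : ‖1 + Complex.exp (2 * Real.pi * Complex.I * (u : ℂ))‖ ^ 2 =
      2 + 2 * Real.cos (2 * Real.pi * u) := by
    have e1 : 2 * Real.pi * Complex.I * (u : ℂ) = ((2 * Real.pi * u : ℝ) : ℂ) * Complex.I := by
      push_cast; ring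
    rw [e1, Complex.sq_norm, Complex.normSq_apply, Complex.add_re, Complex.add_im,
      Complex.exp_ofReal_mul_I_re, Complex.exp_ofReal_mul_I_im, Complex.one_re, Complex.one_im]
    have := Real.sin_sq_add_cos_sq (2 * Real.pi * u)
    nlinarith
  have hexp : 1 - 4 * δ ^ 2 ≤ Real.exp (-4 * δ ^ 2) := by
    have := Real.add_one_le_exp (-4 * δ ^ 2)
    linarith
  have hsq : (2 * Real.exp (-2 * δ ^ 2)) ^ 2 = 4 * Real.exp (-4 * δ ^ 2) := by
    rw [mul_pow, ← Real.exp_nat_mul]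
    congr 1
    · norm_num
    · congr 1; push_cast; ring
  refine le_of_sq_le_sq ?_ (by positivity)
  rw [hnorm, hsq, hcos]
  linarith


/-- minor arcs bound in terms of the weight of the integers without a multiple near `h` -/
theorem FF_minor (C : Finset ℕ) (N₂ K : ℕ) (hpos : ∀ n ∈ C, 0 < n) (hN₂ : ∀ n ∈ C, n ≤ N₂)
    (h : ℤ) (E : Finset ℕ) (hE : E ⊆ C)
    (hE2 : ∀ n ∈ E, ∀ x : ℤ, |x - h| ≤ K → ¬ (n : ℤ) ∣ x) :
    ‖FF C h‖ ≤ 2 ^ C.card * Real.exp (-2 * (K : ℝ) ^ 2 * w E / N₂) := by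
  classical
  have hfac : ∀ n ∈ C, ‖1 + Complex.exp (2 * Real.pi * Complex.I * ((h : ℂ) / (n : ℂ)))‖ ≤
      2 * Real.exp (-2 * (if n ∈ E then (K : ℝ) / n else 0) ^ 2) := by
    intro n hn
    have hn0 : (0 : ℝ) < n := by exact_mod_cast hpos n hn
    have e1 : ((h : ℂ) / (n : ℂ)) = (((h : ℝ) / (n : ℝ) : ℝ) : ℂ) := by push_cast; ring
    rw [e1]
    apply factor_bound
    · split_ifs <;> positivity
    · intro a
      split_ifs with hnE
      · have h1 := hE2 n hnE (n * a)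
        have h2 : ¬ |(n : ℤ) * a - h| ≤ K := fun hle => h1 hle (Dvd.intro a rfl)
        have h3 : ((K : ℤ) : ℝ) ≤ ((|(n : ℤ) * a - h| : ℤ) : ℝ) := by
          exact_mod_cast (not_le.mp h2).le
        push_cast at h3
        have h4 : (h : ℝ) / n - a = (h - n * a) / n := by field_simp
        rw [h4, abs_div, abs_of_pos hn0, abs_sub_comm]
        exact div_le_div_of_nonneg_right h3 hn0.le
      · exact abs_nonneg _
  unfold FF
  rw [norm_prod]
  refine le_trans (Finset.prod_le_prod (fun n _ => norm_nonneg _) hfac) ?_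
  rw [Finset.prod_mul_distrib, Finset.prod_const, ← Real.exp_sum]
  refine mul_le_mul_of_nonneg_left ?_ (by positivity)
  rw [Real.exp_le_exp]
  have h1 : ∑ n ∈ C, -2 * (if n ∈ E then (K : ℝ) / n else 0) ^ 2 =
      ∑ n ∈ E, -2 * ((K : ℝ) / n) ^ 2 := by
    rw [← Finset.sum_subset hE]
    · apply Finset.sum_congr rfl
      intro n hn
      rw [if_pos hn]
    · intro n _ hn
      rw [if_neg hn]; ring
  rw [h1]
  unfold w
  rw [Finset.mul_sum, Finset.sum_div]
  apply Finset.sum_le_sum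
  intro n hn
  have hn0 : (0 : ℝ) < n := by exact_mod_cast hpos n (hE hn)
  have hnN : (n : ℝ) ≤ N₂ := by exact_mod_cast hN₂ n (hE hn)
  have hN0 : (0 : ℝ) < N₂ := lt_of_lt_of_le hn0 hnN
  have h2 : (K : ℝ) ^ 2 * (1 / n) / N₂ ≤ ((K : ℝ) / n) ^ 2 := by
    rw [div_pow, mul_one_div, div_div]
    apply div_le_div_of_nonneg_left (by positivity) (by positivity)
    nlinarith
  have h3 : -2 * (K : ℝ) ^ 2 * (1 / n) / N₂ = -2 * ((K : ℝ) ^ 2 * (1 / n) / N₂) := by ring
  rw [h3]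
  linarith

end L5

open L5 (FF_minor)

namespace L6

theorem pow_ineq (j : ℕ) (hj : 6 ≤ j) : 8 * (j + 1) + 1 ≤ 2 ^ j := by
  induction j, hj using Nat.le_induction with
  | base => norm_num
  | succ j hj ih => rw [pow_succ]; omega

theorem theta_diff (M N : ℕ) (hMN : M ≤ N) :
    Chebyshev.theta N - Chebyshev.theta M =
      ∑ p ∈ (Finset.Ioc M N).filter Nat.Prime, Real.log p := by
  unfold Chebyshev.theta
  rw [Nat.floor_natCast, Nat.floor_natCast]
  have h1 : (Finset.Ioc 0 N).filter Nat.Prime =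
      (Finset.Ioc 0 M).filter Nat.Prime ∪ (Finset.Ioc M N).filter Nat.Prime := by
    rw [← Finset.filter_union, Finset.Ioc_union_Ioc_eq_Ioc (Nat.zero_le _) hMN]
  have h2 : Disjoint ((Finset.Ioc 0 M).filter Nat.Prime) ((Finset.Ioc M N).filter Nat.Prime) := by
    apply Finset.disjoint_filter_filter
    rw [Finset.disjoint_left]
    intro x hx hx'
    rw [Finset.mem_Ioc] at hx hx'
    omega
  rw [h1, Finset.sum_union h2]
  ring

/-- Chebyshev type lower bound, one scale -/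
theorem cheb_scale : ∃ j₀ : ℕ, ∀ j : ℕ, j₀ ≤ j →
    1 / (8 * ((j : ℝ) + 1)) ≤ w ((Finset.Ioc (4 ^ j) (4 ^ (j + 1))).filter Nat.Prime) := by
  refine ⟨6, fun j hj => ?_⟩
  set L : ℝ := Real.log 2 with hL
  have hLp : 0 < L := Real.log_pos (by norm_num)
  have hMN : (4 : ℕ) ^ j ≤ 4 ^ (j + 1) := Nat.pow_le_pow_right (by norm_num) (by omega)
  have hd := theta_diff (4 ^ j) (4 ^ (j + 1)) hMN
  have hge := Chebyshev.theta_ge (4 ^ (j + 1))
  have hle := Chebyshev.theta_le_log4_mul_x (x := ((4 ^ j : ℕ) : ℝ)) (by positivity)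
  have hlog4 : Real.log 4 = 2 * L := by
    rw [show (4 : ℝ) = 2 ^ 2 by norm_num, Real.log_pow, hL]; norm_num
  have hlogN : Real.log ((4 ^ (j + 1) : ℕ) : ℝ) = 2 * ((j : ℝ) + 1) * L := by
    push_cast
    rw [Real.log_pow, hlog4]; push_cast; ring
  have hsqrt : √((4 ^ (j + 1) : ℕ) : ℝ) = 2 * 2 ^ j := by
    have : ((4 ^ (j + 1) : ℕ) : ℝ) = (2 * 2 ^ j) ^ 2 := by
      push_cast
      rw [mul_pow, ← pow_mul, mul_comm j 2, pow_mul, pow_succ]
      norm_num
      ring
    rw [this, Real.sqrt_sq (by positivity)]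
  have hlogN1 : Real.log (((4 ^ (j + 1) : ℕ) : ℝ) + 1) ≤ 2 * ((j : ℝ) + 2) * L := by
    have h1 : ((4 ^ (j + 1) : ℕ) : ℝ) + 1 ≤ 4 ^ (j + 2) := by
      push_cast
      have : (1 : ℝ) ≤ 4 ^ (j + 1) := one_le_pow₀ (by norm_num)
      rw [pow_succ _ (j + 1)]
      linarith
    calc Real.log (((4 ^ (j + 1) : ℕ) : ℝ) + 1) ≤ Real.log (4 ^ (j + 2)) :=
          Real.log_le_log (by positivity) h1
      _ = 2 * ((j : ℝ) + 2) * L := by rw [Real.log_pow, hlog4]; push_cast; ring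
  have hsmall : (2 * ((j : ℝ) + 2) + 8 * ((j : ℝ) + 1) * 2 ^ j) ≤ 4 ^ j := by
    have h1 := pow_ineq j hj
    have h2 : (8 * ((j : ℝ) + 1) + 1) ≤ 2 ^ j := by exact_mod_cast h1
    have h3 : (4 : ℝ) ^ j = 2 ^ j * 2 ^ j := by rw [← mul_pow]; norm_num
    have h4 : (0 : ℝ) < 2 ^ j := by positivity
    have h5 : 2 * ((j : ℝ) + 2) ≤ 2 ^ j := by
      have : (0 : ℝ) ≤ j := Nat.cast_nonneg j
      linarith
    rw [h3]
    nlinarith [mul_le_mul_of_nonneg_right h2 h4.le]
  have hN : ((4 ^ (j + 1) : ℕ) : ℝ) = 4 * 4 ^ j := by push_cast; rw [pow_succ]; ring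
  have hM : ((4 ^ j : ℕ) : ℝ) = 4 ^ j := by push_cast; ring
  rw [hlogN, hsqrt] at hge
  rw [hlog4] at hle
  have hlow : (4 : ℝ) ^ j * L ≤ Chebyshev.theta ((4 ^ (j + 1) : ℕ) : ℝ) -
      Chebyshev.theta ((4 ^ j : ℕ) : ℝ) := by
    have h6 := mul_le_mul_of_nonneg_right hsmall hLp.le
    rw [hM] at hle
    have hge' : 4 * 4 ^ j * L - 2 * ((j : ℝ) + 2) * L - 2 * (2 * 2 ^ j) * (2 * ((j : ℝ) + 1) * L) ≤
        Chebyshev.theta ((4 ^ (j + 1) : ℕ) : ℝ) := by
      rw [hN] at hge hlogN1 ⊢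
      linarith
    rw [hM]
    have h7 : (2 * ((j : ℝ) + 2) + 8 * ((j : ℝ) + 1) * 2 ^ j) * L =
      2 * ((j : ℝ) + 2) * L + 2 * (2 * 2 ^ j) * (2 * ((j : ℝ) + 1) * L) := by ring
    rw [h7] at h6
    linarith
  have hup : Chebyshev.theta ((4 ^ (j + 1) : ℕ) : ℝ) - Chebyshev.theta ((4 ^ j : ℕ) : ℝ) ≤
      (2 * ((j : ℝ) + 1) * L) * (4 * 4 ^ j) *
        w ((Finset.Ioc (4 ^ j) (4 ^ (j + 1))).filter Nat.Prime) := by
    rw [hd, w, Finset.mul_sum]
    apply Finset.sum_le_sum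
    intro p hp
    rw [Finset.mem_filter, Finset.mem_Ioc] at hp
    obtain ⟨⟨hp1, hp2⟩, hp3⟩ := hp
    have hpp : (0 : ℝ) < p := by exact_mod_cast hp3.pos
    have hple : (p : ℝ) ≤ ((4 ^ (j + 1) : ℕ) : ℝ) := by exact_mod_cast hp2
    have h8 : Real.log p ≤ 2 * ((j : ℝ) + 1) * L := by
      rw [← hlogN]
      exact Real.log_le_log hpp hple
    have h9 : (1 : ℝ) ≤ (4 * 4 ^ j) * (1 / p) := by
      rw [← hN, mul_one_div, one_le_div hpp]
      exact hple
    have h10 : (0 : ℝ) ≤ 2 * ((j : ℝ) + 1) * L := by positivity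
    calc Real.log p ≤ 2 * ((j : ℝ) + 1) * L * 1 := by rw [mul_one]; exact h8
      _ ≤ 2 * ((j : ℝ) + 1) * L * ((4 * 4 ^ j) * (1 / p)) := mul_le_mul_of_nonneg_left h9 h10
      _ = (2 * ((j : ℝ) + 1) * L) * (4 * 4 ^ j) * (1 / p) := by ring
  have h11 := hlow.trans hup
  rw [div_le_iff₀ (by positivity)]
  have h12 : (0 : ℝ) < 4 ^ j * L := by positivity
  have h13 : (2 * ((j : ℝ) + 1) * L) * (4 * 4 ^ j) *
        w ((Finset.Ioc (4 ^ j) (4 ^ (j + 1))).filter Nat.Prime) =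
        (4 ^ j * L) * (w ((Finset.Ioc (4 ^ j) (4 ^ (j + 1))).filter Nat.Prime) *
          (8 * ((j : ℝ) + 1))) := by ring
  rw [h13] at h11
  have h14 : (4 : ℝ) ^ j * L * 1 ≤ (4 ^ j * L) *
      (w ((Finset.Ioc (4 ^ j) (4 ^ (j + 1))).filter Nat.Prime) * (8 * ((j : ℝ) + 1))) := by
    rw [mul_one]; exact h11
  exact le_of_mul_le_mul_left h14 h12

/-- Chebyshev type lower bound, many scales -/
theorem cheb_range : ∃ j₀ : ℕ, 1 ≤ j₀ ∧ ∀ a b : ℕ, j₀ ≤ a → a ≤ b →
    ((b : ℝ) - a) / (8 * b) ≤ w ((Finset.Ioc (4 ^ a) (4 ^ b)).filter Nat.Prime) := by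
  obtain ⟨j₀, hj⟩ := cheb_scale
  refine ⟨max j₀ 1, le_max_right _ _, fun a b ha hab => ?_⟩
  have ha1 : 1 ≤ a := (le_max_right _ _).trans ha
  have ha0 : j₀ ≤ a := (le_max_left _ _).trans ha
  have key : ∑ j ∈ Finset.Ico a b, 1 / (8 * ((j : ℝ) + 1)) ≤
      w ((Finset.Ioc (4 ^ a) (4 ^ b)).filter Nat.Prime) := by
    induction b, hab using Nat.le_induction with
    | base => simp [w]
    | succ b hab ih =>
      rw [Finset.sum_Ico_succ_top hab]
      have h1 : (Finset.Ioc (4 ^ a) (4 ^ (b + 1))).filter Nat.Prime =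
          (Finset.Ioc (4 ^ a) (4 ^ b)).filter Nat.Prime ∪
            (Finset.Ioc (4 ^ b) (4 ^ (b + 1))).filter Nat.Prime := by
        rw [← Finset.filter_union, Finset.Ioc_union_Ioc_eq_Ioc
          (Nat.pow_le_pow_right (by norm_num) hab) (Nat.pow_le_pow_right (by norm_num) (by omega))]
      have h2 : Disjoint ((Finset.Ioc (4 ^ a) (4 ^ b)).filter Nat.Prime)
          ((Finset.Ioc (4 ^ b) (4 ^ (b + 1))).filter Nat.Prime) := by
        apply Finset.disjoint_filter_filter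
        rw [Finset.disjoint_left]
        intro x hx hx'
        rw [Finset.mem_Ioc] at hx hx'
        omega
      rw [h1, w, Finset.sum_union h2]
      exact add_le_add ih (hj b (ha0.trans hab))
  refine le_trans ?_ key
  have hb : (0 : ℝ) < b := by exact_mod_cast (by omega : 0 < b)
  have h3 : ∑ _j ∈ Finset.Ico a b, 1 / (8 * (b : ℝ)) ≤
      ∑ j ∈ Finset.Ico a b, 1 / (8 * ((j : ℝ) + 1)) := by
    apply Finset.sum_le_sum
    intro j hjm
    rw [Finset.mem_Ico] at hjm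
    apply one_div_le_one_div_of_le (by positivity)
    have : (j : ℝ) + 1 ≤ b := by exact_mod_cast hjm.2
    linarith
  rw [Finset.sum_const, Nat.card_Ico, nsmul_eq_mul, Nat.cast_sub hab] at h3
  refine le_trans (le_of_eq ?_) h3
  ring

end L6

open L6 (cheb_range)

namespace L7

/-- two integers divisible by a large part of the primes of a block and close together are equal -/
theorem eq_of_common (A : Finset ℕ) (y K : ℕ) (hA : ∀ p ∈ A, p.Prime) (hy : ∀ p ∈ A, y ≤ p)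
    (hy0 : 0 < y) (c : ℝ) (x x' : ℤ) (hxx : |x - x'| ≤ 2 * K) (hwA : w A ≤ c)
    (h1 : c + 1 / 2 ≤ sd A x + sd A x') (hK : 2 * K < 2 ^ (y / 2)) : x = x' := by
  classical
  by_contra hne
  set F1 := A.filter (fun p : ℕ => (p : ℤ) ∣ x) with hF1
  set F2 := A.filter (fun p : ℕ => (p : ℤ) ∣ x') with hF2
  set U := F1 ∩ F2 with hU
  have hUA : U ⊆ A := Finset.inter_subset_left.trans (Finset.filter_subset _ _)
  have e1 : w (F1 ∪ F2) + w U = w F1 + w F2 := Finset.sum_union_inter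
  have e2 : w (F1 ∪ F2) ≤ w A := by
    apply Finset.sum_le_sum_of_subset_of_nonneg
    · exact Finset.union_subset (Finset.filter_subset _ _) (Finset.filter_subset _ _)
    · intro i _ _; positivity
  have e3 : 1 / 2 ≤ w U := by
    have : sd A x + sd A x' = w F1 + w F2 := rfl
    linarith
  have hy' : (0 : ℝ) < y := by exact_mod_cast hy0
  have e4 : w U ≤ U.card * (1 / y) := by
    unfold w
    rw [← nsmul_eq_mul]
    apply Finset.sum_le_card_nsmul
    intro p hp
    apply one_div_le_one_div_of_le hy'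
    exact_mod_cast hy p (hUA hp)
  have e5 : (y : ℝ) ≤ 2 * U.card := by
    have h2 : 1 / 2 ≤ (U.card : ℝ) * (1 / y) := e3.trans e4
    rw [mul_one_div, div_le_div_iff₀ (by norm_num) hy'] at h2
    linarith
  have e6 : y ≤ 2 * U.card := by exact_mod_cast e5
  have e7 : (∏ p ∈ U, p) ∣ (x - x').natAbs := by
    apply Finset.prod_primes_dvd
    · intro p hp
      exact (hA p (hUA hp)).prime
    · intro p hp
      rw [hU, Finset.mem_inter, hF1, hF2, Finset.mem_filter, Finset.mem_filter] at hp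
      exact Int.natCast_dvd.mp (dvd_sub hp.1.2 hp.2.2)
  have e8 : (x - x').natAbs ≤ 2 * K := by
    have : (((x - x').natAbs : ℕ) : ℤ) ≤ 2 * K := by
      rw [Int.natCast_natAbs]; exact hxx
    exact_mod_cast this
  have e9 : (x - x').natAbs ≠ 0 := by
    intro h0
    exact hne (sub_eq_zero.mp (Int.natAbs_eq_zero.mp h0))
  have e10 : ∏ p ∈ U, p ≤ (x - x').natAbs := Nat.le_of_dvd (Nat.pos_of_ne_zero e9) e7
  have e11 : 2 ^ U.card ≤ ∏ p ∈ U, p := by
    rw [← Finset.prod_const]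
    apply Finset.prod_le_prod'
    intro p hp
    exact (hA p (hUA hp)).two_le
  have e12 : 2 ^ (y / 2) ≤ 2 ^ U.card := Nat.pow_le_pow_right (by norm_num) (by omega)
  omega

theorem few_bad {k : ℕ} (s : Fin k → ℝ) (c η : ℝ) (hc : 1 ≤ c) (hc2 : c ≤ 21 / 20)
    (hs0 : ∀ i, 0 ≤ s i) (hs : ∀ i, s i ≤ c)
    (i₀ : Fin k) (h : η ≤ ∏ i ∈ Finset.univ.erase i₀, s i) (hk : 8 ≤ k)
    (hη : (49 / 50 : ℝ) ^ (k / 4) < η) :
    2 * (Finset.univ.filter (fun i => s i < 4 / 5 * c)).card < k := by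
  classical
  set B := Finset.univ.filter (fun i => s i < 4 / 5 * c) with hB
  by_contra hcon
  push Not at hcon
  set m := k / 4 with hm
  have h1 : m + 1 ≤ (B.erase i₀).card := by
    have := Finset.pred_card_le_card_erase (s := B) (a := i₀)
    omega
  have h2 : ∏ i ∈ Finset.univ.erase i₀, s i ≤ ∏ i ∈ Finset.univ.erase i₀, (c * if i ∈ B then 4 / 5 else 1) := by
    apply Finset.prod_le_prod
    · intro i _; exact hs0 i
    · intro i _
      by_cases hi : i ∈ B
      · rw [if_pos hi]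
        rw [hB, Finset.mem_filter] at hi
        linarith [hi.2]
      · rw [if_neg hi, mul_one]; exact hs i
  have h3 : ∏ i ∈ Finset.univ.erase i₀, (c * if i ∈ B then 4 / 5 else 1) = c ^ (k - 1) * (4 / 5) ^ (B.erase i₀).card := by
    rw [Finset.prod_mul_distrib, Finset.prod_const, Finset.card_erase_of_mem (Finset.mem_univ _),
      Finset.card_univ, Fintype.card_fin, Finset.prod_ite, Finset.prod_const, Finset.prod_const_one, mul_one]
    congr 3
    ext i
    simp only [Finset.mem_filter, Finset.mem_erase, Finset.mem_univ, and_true]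
  have hc0 : 0 ≤ c := by linarith
  have h4 : c ^ (k - 1) ≤ c ^ (4 * m + 2) := pow_le_pow_right₀ hc (by omega)
  have h5 : ((4 : ℝ) / 5) ^ (B.erase i₀).card ≤ (4 / 5) ^ (m + 1) :=
    pow_le_pow_of_le_one (by norm_num) (by norm_num) h1
  have h6 : c ^ (k - 1) * (4 / 5) ^ (B.erase i₀).card ≤ c ^ (4 * m + 2) * (4 / 5) ^ (m + 1) :=
    mul_le_mul h4 h5 (by positivity) (by positivity)
  have h7 : c ^ (4 * m + 2) * ((4 : ℝ) / 5) ^ (m + 1) = (4 / 5 * c ^ 4) ^ m * (4 / 5 * c ^ 2) := by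
    rw [mul_pow, ← pow_mul, pow_succ, pow_add]; ring
  have hc4 : c ^ 4 ≤ (21 / 20) ^ 4 := pow_le_pow_left₀ hc0 hc2 4
  have hc2' : c ^ 2 ≤ (21 / 20) ^ 2 := pow_le_pow_left₀ hc0 hc2 2
  have h8 : (4 / 5 * c ^ 4) ^ m ≤ (49 / 50 : ℝ) ^ m := by
    apply pow_le_pow_left₀ (by positivity)
    norm_num at hc4 ⊢
    linarith
  have h9 : 4 / 5 * c ^ 2 ≤ 1 := by
    norm_num at hc2' ⊢
    linarith
  have h10 : (4 / 5 * c ^ 4) ^ m * (4 / 5 * c ^ 2) ≤ (49 / 50 : ℝ) ^ m * 1 :=
    mul_le_mul h8 h9 (by positivity) (by positivity)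
  linarith

/-- good integers: few blocks are bad -/
theorem exists_common_block {k : ℕ} (s s' : Fin k → ℝ) (c η : ℝ) (hc : 1 ≤ c) (hc2 : c ≤ 21 / 20)
    (hs0 : ∀ i, 0 ≤ s i) (hs0' : ∀ i, 0 ≤ s' i) (hs : ∀ i, s i ≤ c) (hs' : ∀ i, s' i ≤ c)
    (i₀ i₀' : Fin k) (h : η ≤ ∏ i ∈ Finset.univ.erase i₀, s i)
    (h' : η ≤ ∏ i ∈ Finset.univ.erase i₀', s' i) (hk : 8 ≤ k)
    (hη : (49 / 50 : ℝ) ^ (k / 4) < η) :
    ∃ i, 4 / 5 * c ≤ s i ∧ 4 / 5 * c ≤ s' i := by
  classical
  by_contra hcon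
  push Not at hcon
  have h1 := few_bad s c η hc hc2 hs0 hs i₀ h hk hη
  have h2 := few_bad s' c η hc hc2 hs0' hs' i₀' h' hk hη
  set B := Finset.univ.filter (fun i => s i < 4 / 5 * c) with hB
  set B' := Finset.univ.filter (fun i => s' i < 4 / 5 * c) with hB'
  have h3 : B ∪ B' = Finset.univ := by
    ext i
    simp only [hB, hB', Finset.mem_union, Finset.mem_filter, Finset.mem_univ, true_and, iff_true]
    by_cases hi : s i < 4 / 5 * c
    · exact Or.inl hi
    · exact Or.inr (hcon i (not_lt.mp hi))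
  have h4 := Finset.card_union_le B B'
  rw [h3, Finset.card_univ, Fintype.card_fin] at h4
  omega

end L7

open L7 (eq_of_common exists_common_block)

/-! basic facts on weights -/

theorem w_nonneg (A : Finset ℕ) : 0 ≤ w A := Finset.sum_nonneg fun n _ => by positivity

theorem w_mono {A B : Finset ℕ} (h : A ⊆ B) : w A ≤ w B :=
  Finset.sum_le_sum_of_subset_of_nonneg h fun n _ _ => by positivity

theorem sd_nonneg (A : Finset ℕ) (x : ℤ) : 0 ≤ sd A x := w_nonneg _

theorem sd_le (A : Finset ℕ) (x : ℤ) : sd A x ≤ w A := w_mono (Finset.filter_subset _ _)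

/-- `q` belongs to one of the blocks -/
def inB {k : ℕ} (P : Fin k → Finset ℕ) (Q : Fin 3 → Finset ℕ) (q : ℕ) : Prop :=
  (∃ i, q ∈ P i) ∨ (∃ j, q ∈ Q j)

theorem lemmaB {k : ℕ} {P : Fin k → Finset ℕ} {Q : Fin 3 → Finset ℕ} (hS : Sys k P Q)
    (hk : 0 < k) (hP2 : ∀ i, w (P i) ≤ 21 / 20) (hQ1 : ∀ j, w (Q j) ≤ 1)
    (τ : ℝ) (hτ : 0 < τ) (q : ℕ) (hq : inB P Q q) (h : ℤ) (K : ℕ)
    (hK : ∀ e ∈ Fintype.piFinset Q, 2 * K < ∏ j, e j)
    (C' : Finset ℕ) (hC' : ∀ n ∈ C', n ∈ XX P Q ∧ q ∣ n) (hw : τ / (2 * q) ≤ w C')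
    (hdiv : ∀ n ∈ C', ∃ x : ℤ, |x - h| ≤ K ∧ (n : ℤ) ∣ x) :
    ∃ x : ℤ, |x - h| ≤ K ∧ (q : ℤ) ∣ x ∧
      ∃ i₀ : Fin k, τ / 4 ≤ ∏ i ∈ Finset.univ.erase i₀, sd (P i) x := by
  classical
  by_contra hcon
  push Not at hcon
  have hprime : q.Prime := by
    rcases hq with ⟨i, hi⟩ | ⟨j, hj⟩
    · exact hS.primeP i q hi
    · exact hS.primeQ j q hj
  have hq0 : (0 : ℝ) < q := by exact_mod_cast hprime.pos
  have hX : ∀ n ∈ C', ∃ f ∈ Fintype.piFinset P, ∃ e ∈ Fintype.piFinset Q, n = nn (f, e) := by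
    intro n hn
    obtain ⟨h1, -⟩ := hC' n hn
    unfold XX at h1
    rw [Finset.mem_image] at h1
    obtain ⟨⟨f, e⟩, hfe, rfl⟩ := h1
    rw [Finset.mem_product] at hfe
    exact ⟨f, hfe.1, e, hfe.2, rfl⟩
  have hdq : ∀ x : ℤ, (∃ n ∈ C', (n : ℤ) ∣ x) → (q : ℤ) ∣ x := by
    rintro x ⟨n, hn, hnx⟩
    exact (Int.natCast_dvd_natCast.2 (hC' n hn).2).trans hnx
  rcases hq with ⟨i₁, hi₁⟩ | ⟨j₁, hj₁⟩
  · -- `q` in a small block
    have hA := lemmaA (Function.update P i₁ {q}) Q C' ?_ ?_ ?_ h K hK (1 / q * (τ / 4))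
      (by positivity) hdiv ?_
    · have h1 : ∏ j, w (Q j) ≤ 1 := Finset.prod_le_one (fun j _ => w_nonneg _) fun j _ => hQ1 j
      have h2 : w C' ≤ 1 * (1 / q * (τ / 4)) :=
        hA.trans (mul_le_mul_of_nonneg_right h1 (by positivity))
      have h3 : τ / (2 * q) = 2 * (1 / q * (τ / 4)) := by field_simp; norm_num
      have h4 : 0 < 1 / (q : ℝ) * (τ / 4) := by positivity
      rw [h3] at hw
      linarith
    · intro n hn
      obtain ⟨f, hf, e, he, hnn⟩ := hX n hn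
      have hfi : f i₁ = q := eq_of_dvd_left hS hf he hi₁ (hnn ▸ (hC' n hn).2)
      refine ⟨f, ?_, e, he, hnn⟩
      rw [Fintype.mem_piFinset] at hf ⊢
      intro i
      by_cases hi : i = i₁
      · subst hi
        rw [Function.update_self, Finset.mem_singleton]
        exact hfi
      · rw [Function.update_of_ne hi]
        exact hf i
    · intro i p hp
      by_cases hi : i = i₁
      · subst hi
        rw [Function.update_self, Finset.mem_singleton] at hp
        rw [hp]; exact hprime.pos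
      · rw [Function.update_of_ne hi] at hp
        exact (hS.primeP i p hp).pos
    · intro j p hp
      exact (hS.primeQ j p hp).pos
    · intro x hx hnx
      have hqx := hdq x hnx
      have h1 := hcon x hx hqx i₁
      rw [← Finset.mul_prod_erase Finset.univ _ (Finset.mem_univ i₁)]
      have h2 : w (((Function.update P i₁ {q}) i₁).filter (fun p => (p : ℤ) ∣ x)) ≤ 1 / q := by
        rw [Function.update_self]
        refine (w_mono (Finset.filter_subset _ _)).trans ?_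
        unfold w
        rw [Finset.sum_singleton]
      have h3 : ∏ i ∈ Finset.univ.erase i₁, w (((Function.update P i₁ {q}) i).filter
          (fun p => (p : ℤ) ∣ x)) = ∏ i ∈ Finset.univ.erase i₁, sd (P i) x := by
        refine Finset.prod_congr rfl fun i hi => ?_
        rw [Function.update_of_ne (Finset.ne_of_mem_erase hi)]
        rfl
      rw [h3]
      exact mul_le_mul h2 h1.le (Finset.prod_nonneg fun i _ => sd_nonneg _ _) (by positivity)
  · -- `q` in a large block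
    have hsub : ∀ e ∈ Fintype.piFinset (Function.update Q j₁ {q}), e ∈ Fintype.piFinset Q := by
      intro e he
      rw [Fintype.mem_piFinset] at he ⊢
      intro j
      have := he j
      by_cases hj : j = j₁
      · subst hj
        rw [Function.update_self, Finset.mem_singleton] at this
        rw [this]; exact hj₁
      · rw [Function.update_of_ne hj] at this
        exact this
    have hA := lemmaA P (Function.update Q j₁ {q}) C' ?_ ?_ ?_ h K
      (fun e he => hK e (hsub e he)) (21 / 20 * (τ / 4)) (by positivity) hdiv ?_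
    · have h1 : ∏ j, w ((Function.update Q j₁ {q}) j) ≤ 1 / q := by
        rw [← Finset.mul_prod_erase Finset.univ _ (Finset.mem_univ j₁), Function.update_self]
        have h2 : ∏ j ∈ Finset.univ.erase j₁, w ((Function.update Q j₁ {q}) j) ≤ 1 := by
          refine Finset.prod_le_one (fun j _ => w_nonneg _) fun j hj => ?_
          rw [Function.update_of_ne (Finset.ne_of_mem_erase hj)]
          exact hQ1 j
        have h3 : w {q} = 1 / q := by unfold w; rw [Finset.sum_singleton]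
        rw [h3]
        exact mul_le_of_le_one_right (by positivity) h2
      have h2 : w C' ≤ 1 / q * (21 / 20 * (τ / 4)) :=
        hA.trans (mul_le_mul_of_nonneg_right h1 (by positivity))
      have h3 : τ / (2 * q) = 2 * (1 / q * (τ / 4)) := by field_simp; norm_num
      have h4 : 0 < 1 / (q : ℝ) * (τ / 4) := by positivity
      have h5 : 1 / (q : ℝ) * (21 / 20 * (τ / 4)) = 21 / 20 * (1 / q * (τ / 4)) := by ring
      rw [h3] at hw
      rw [h5] at h2
      linarith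
    · intro n hn
      obtain ⟨f, hf, e, he, hnn⟩ := hX n hn
      have hej : e j₁ = q := eq_of_dvd_right hS hf he hj₁ (hnn ▸ (hC' n hn).2)
      refine ⟨f, hf, e, ?_, hnn⟩
      rw [Fintype.mem_piFinset] at he ⊢
      intro j
      by_cases hj : j = j₁
      · subst hj
        rw [Function.update_self, Finset.mem_singleton]
        exact hej
      · rw [Function.update_of_ne hj]
        exact he j
    · intro i p hp
      exact (hS.primeP i p hp).pos
    · intro j p hp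
      by_cases hj : j = j₁
      · subst hj
        rw [Function.update_self, Finset.mem_singleton] at hp
        rw [hp]; exact hprime.pos
      · rw [Function.update_of_ne hj] at hp
        exact (hS.primeQ j p hp).pos
    · intro x hx hnx
      have hqx := hdq x hnx
      have h1 := hcon x hx hqx ⟨0, hk⟩
      rw [← Finset.mul_prod_erase Finset.univ _ (Finset.mem_univ (⟨0, hk⟩ : Fin k))]
      have h2 : w ((P ⟨0, hk⟩).filter (fun p => (p : ℤ) ∣ x)) ≤ 21 / 20 :=
        (sd_le _ _).trans (hP2 _)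
      exact mul_le_mul h2 h1.le (Finset.prod_nonneg fun i _ => sd_nonneg _ _) (by norm_num)

theorem lemmaD {k : ℕ} {P : Fin k → Finset ℕ} {Q : Fin 3 → Finset ℕ} (hS : Sys k P Q)
    (hk : 8 ≤ k) (hP2 : ∀ i, w (P i) ≤ 21 / 20) (hQ1 : ∀ j, w (Q j) ≤ 1)
    (C : Finset ℕ) (hC : C ⊆ XX P Q) (hCne : C.Nonempty) (τ : ℝ) (hτ : 0 < τ)
    (hη : (49 / 50 : ℝ) ^ (k / 4) < τ / 4) (z y K : ℕ)
    (hy : ∀ i, ∀ p ∈ P i, y ≤ p) (hy0 : 0 < y) (hKy : 2 * K < 2 ^ (y / 2))
    (hz : ∀ q, inB P Q q → q ≤ z)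
    (hK : ∀ e ∈ Fintype.piFinset Q, 2 * K < ∏ j, e j)
    (hreg : ∀ q, inB P Q q → (∃ n ∈ C, q ∣ n) → τ / q ≤ w (C.filter (fun n => q ∣ n)))
    (PP : ℕ) (hPP : ∀ x : ℤ, (∀ q, inB P Q q → (∃ n ∈ C, q ∣ n) → (q : ℤ) ∣ x) → (PP : ℤ) ∣ x)
    (h : ℤ) (hminor : ∀ j : ℤ, (K : ℤ) < |h - PP * j|)
    (E : Finset ℕ) (hE : ∀ n ∈ C, n ∉ E → ∃ x : ℤ, |x - h| ≤ K ∧ (n : ℤ) ∣ x) :
    τ / (2 * z) ≤ w E := by
  classical
  by_contra hcon
  push Not at hcon
  have hgood : ∀ q, inB P Q q → (∃ n ∈ C, q ∣ n) → ∃ x : ℤ, |x - h| ≤ K ∧ (q : ℤ) ∣ x ∧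
      ∃ i₀ : Fin k, τ / 4 ≤ ∏ i ∈ Finset.univ.erase i₀, sd (P i) x := by
    intro q hq hqC
    have hprime : q.Prime := by
      rcases hq with ⟨i, hi⟩ | ⟨j, hj⟩
      · exact hS.primeP i q hi
      · exact hS.primeQ j q hj
    have hq0 : (0 : ℝ) < q := by exact_mod_cast hprime.pos
    have hqz : (q : ℝ) ≤ z := by exact_mod_cast hz q hq
    refine lemmaB hS (by omega) hP2 hQ1 τ hτ q hq h K hK
      ((C.filter (fun n => q ∣ n)).filter (fun n => n ∉ E)) ?_ ?_ ?_
    · intro n hn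
      rw [Finset.mem_filter, Finset.mem_filter] at hn
      exact ⟨hC hn.1.1, hn.1.2⟩
    · have h1 := hreg q hq hqC
      have h2 : w (C.filter (fun n => q ∣ n)) ≤
          w ((C.filter (fun n => q ∣ n)).filter (fun n => n ∉ E)) + w E := by
        have h3 : w (C.filter (fun n => q ∣ n)) =
            w ((C.filter (fun n => q ∣ n)).filter (fun n => n ∉ E)) +
            w ((C.filter (fun n => q ∣ n)).filter (fun n => ¬ n ∉ E)) := by
          unfold w
          rw [Finset.sum_filter_add_sum_filter_not]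
        have h4 : w ((C.filter (fun n => q ∣ n)).filter (fun n => ¬ n ∉ E)) ≤ w E := by
          apply w_mono
          intro n hn
          rw [Finset.mem_filter, not_not] at hn
          exact hn.2
        rw [h3]
        linarith
      have h5 : τ / (2 * z) ≤ τ / (2 * q) := by
        apply div_le_div_of_nonneg_left hτ.le (by positivity)
        linarith
      have h6 : τ / q = τ / (2 * q) + τ / (2 * q) := by field_simp; norm_num
      rw [h6] at h1
      linarith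
    · intro n hn
      rw [Finset.mem_filter, Finset.mem_filter] at hn
      exact hE n hn.1.1 hn.2
  have heq : ∀ x x' : ℤ, |x - h| ≤ K → |x' - h| ≤ K →
      (∃ i₀ : Fin k, τ / 4 ≤ ∏ i ∈ Finset.univ.erase i₀, sd (P i) x) →
      (∃ i₀ : Fin k, τ / 4 ≤ ∏ i ∈ Finset.univ.erase i₀, sd (P i) x') → x = x' := by
    rintro x x' hx hx' ⟨i₀, hi₀⟩ ⟨i₀', hi₀'⟩
    obtain ⟨i, h1, h2⟩ := exists_common_block (fun i => sd (P i) x) (fun i => sd (P i) x')
      (21 / 20) (τ / 4) (by norm_num) le_rfl (fun i => sd_nonneg _ _) (fun i => sd_nonneg _ _)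
      (fun i => (sd_le _ _).trans (hP2 i)) (fun i => (sd_le _ _).trans (hP2 i)) i₀ i₀' hi₀ hi₀'
      hk hη
    refine eq_of_common (P i) y K (hS.primeP i) (hy i) hy0 (21 / 20) x x' ?_ (hP2 i) ?_ hKy
    · have h3 : x - x' = (x - h) - (x' - h) := by ring
      rw [h3]
      refine (abs_sub _ _).trans ?_
      linarith
    · have h4 : (4 : ℝ) / 5 * (21 / 20) ≤ sd (P i) x := h1
      have h5 : (4 : ℝ) / 5 * (21 / 20) ≤ sd (P i) x' := h2
      linarith
  obtain ⟨n₀, hn₀⟩ := hCne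
  obtain ⟨q₀, hq₀, hq₀n⟩ : ∃ q₀, inB P Q q₀ ∧ q₀ ∣ n₀ := by
    have h1 := hC hn₀
    unfold XX at h1
    rw [Finset.mem_image] at h1
    obtain ⟨⟨f, e⟩, hfe, hn⟩ := h1
    rw [Finset.mem_product, Fintype.mem_piFinset] at hfe
    refine ⟨f ⟨0, by omega⟩, Or.inl ⟨_, hfe.1 ⟨0, by omega⟩⟩, ?_⟩
    rw [← hn]
    exact (Finset.dvd_prod_of_mem f (Finset.mem_univ _)).mul_right _
  obtain ⟨x₀, hx₀, -, hg₀⟩ := hgood q₀ hq₀ ⟨n₀, hn₀, hq₀n⟩
  obtain ⟨j, hj⟩ := hPP x₀ (by
    intro q hq hqC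
    obtain ⟨x, hx, hqx, hg⟩ := hgood q hq hqC
    rw [heq x₀ x hx₀ hx hg₀ hg]
    exact hqx)
  have h1 := hminor j
  rw [← hj, abs_sub_comm] at h1
  omega

/-! the modulus -/

/-- all block primes -/
def blk {k : ℕ} (P : Fin k → Finset ℕ) (Q : Fin 3 → Finset ℕ) : Finset ℕ :=
  Finset.univ.biUnion P ∪ Finset.univ.biUnion Q

theorem mem_blk {k : ℕ} {P : Fin k → Finset ℕ} {Q : Fin 3 → Finset ℕ} {q : ℕ} :
    q ∈ blk P Q ↔ inB P Q q := by
  simp [blk, inB]

theorem inB_prime {k : ℕ} {P : Fin k → Finset ℕ} {Q : Fin 3 → Finset ℕ} (hS : Sys k P Q)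
    {q : ℕ} (hq : inB P Q q) : q.Prime := by
  rcases hq with ⟨i, hi⟩ | ⟨j, hj⟩
  · exact hS.primeP i q hi
  · exact hS.primeQ j q hj

theorem exists_modulus {k : ℕ} {P : Fin k → Finset ℕ} {Q : Fin 3 → Finset ℕ} (hS : Sys k P Q)
    (C : Finset ℕ) (hC : C ⊆ XX P Q) (z : ℕ) (hz : ∀ q, inB P Q q → q ≤ z) :
    ∃ PP : ℕ, 0 < PP ∧ PP ≤ 4 ^ z ∧ (∀ n ∈ C, n ∣ PP) ∧
      ∀ x : ℤ, (∀ q, inB P Q q → (∃ n ∈ C, q ∣ n) → (q : ℤ) ∣ x) → (PP : ℤ) ∣ x := by
  classical
  refine ⟨∏ q ∈ (blk P Q).filter (fun q => ∃ n ∈ C, q ∣ n), q, ?_, ?_, ?_, ?_⟩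
  · refine Finset.prod_pos fun q hq => ?_
    rw [Finset.mem_filter, mem_blk] at hq
    exact (inB_prime hS hq.1).pos
  · refine le_trans ?_ (primorial_le_four_pow z)
    unfold primorial
    refine Finset.prod_le_prod_of_subset_of_one_le' ?_ ?_
    · intro q hq
      rw [Finset.mem_filter, mem_blk] at hq
      rw [Finset.mem_filter, Finset.mem_range]
      exact ⟨Nat.lt_succ_of_le (hz q hq.1), inB_prime hS hq.1⟩
    · intro q hq _
      rw [Finset.mem_filter] at hq
      exact hq.2.one_lt.le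
  · intro n hn
    have h1 := hC hn
    unfold XX at h1
    rw [Finset.mem_image] at h1
    obtain ⟨⟨f, e⟩, hfe, hnn⟩ := h1
    rw [Finset.mem_product, Fintype.mem_piFinset, Fintype.mem_piFinset] at hfe
    obtain ⟨hfe1, hfe2⟩ : (∀ i, f i ∈ P i) ∧ ∀ j, e j ∈ Q j := hfe
    have h2 : n = ∏ s : Fin k ⊕ Fin 3, Sum.elim f e s := by
      rw [Fintype.prod_sum_type, ← hnn]
      rfl
    have hinj : Function.Injective (Sum.elim f e) := by
      rintro (i | j) (i' | j') hij
      · have hij' : f i = f i' := hij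
        by_contra hne
        have hne' : i ≠ i' := fun h => hne (by rw [h])
        have := Finset.disjoint_left.1 (hS.disjP i i' hne') (hfe1 i)
        rw [hij'] at this
        exact this (hfe1 i')
      · have hij' : f i = e j' := hij
        have := Finset.disjoint_left.1 (hS.disjPQ i j') (hfe1 i)
        rw [hij'] at this
        exact absurd (hfe2 j') this
      · have hij' : e j = f i' := hij
        have := Finset.disjoint_left.1 (hS.disjPQ i' j) (hfe1 i')
        rw [← hij'] at this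
        exact absurd (hfe2 j) this
      · have hij' : e j = e j' := hij
        by_contra hne
        have hne' : j ≠ j' := fun h => hne (by rw [h])
        have := Finset.disjoint_left.1 (hS.disjQ j j' hne') (hfe2 j)
        rw [hij'] at this
        exact this (hfe2 j')
    have h3 : ∏ s : Fin k ⊕ Fin 3, Sum.elim f e s =
        ∏ q ∈ Finset.univ.image (Sum.elim f e), q := by
      rw [Finset.prod_image (fun a _ b _ hab => hinj hab)]
    rw [h2, h3]
    apply Finset.prod_dvd_prod_of_subset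
    intro q hq
    rw [Finset.mem_image] at hq
    obtain ⟨s, -, rfl⟩ := hq
    rw [Finset.mem_filter, mem_blk]
    refine ⟨?_, n, hn, ?_⟩
    · rcases s with i | j
      · exact Or.inl ⟨i, hfe1 i⟩
      · exact Or.inr ⟨j, hfe2 j⟩
    · rw [h2]
      exact Finset.dvd_prod_of_mem _ (Finset.mem_univ s)
  · intro x hx
    rw [← Int.dvd_natAbs, Int.natCast_dvd_natCast]
    refine Finset.prod_primes_dvd _ ?_ ?_
    · intro q hq
      rw [Finset.mem_filter, mem_blk] at hq
      exact (inB_prime hS hq.1).prime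
    · intro q hq
      rw [Finset.mem_filter, mem_blk] at hq
      have := hx q hq.1 hq.2
      rwa [← Int.dvd_natAbs, Int.natCast_dvd_natCast] at this

/-- the numerical hypotheses on a system of blocks -/
structure Data (k t y : ℕ) (P : Fin k → Finset ℕ) (Q : Fin 3 → Finset ℕ) : Prop where
  sys : Sys k P Q
  hk : 8 ≤ k
  hη : (49 / 50 : ℝ) ^ (k / 4) < 1 / (16 * ((k : ℝ) + 3))
  wP : ∀ i, w (P i) ≤ 21 / 20
  wQ : ∀ j, w (Q j) ≤ 1
  hy : ∀ i, ∀ p ∈ P i, y ≤ p
  hyt : 160 * t ≤ y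
  hf : ∀ f ∈ Fintype.piFinset P, ∏ i, f i ≤ 4 ^ t
  hPt : ∀ i, ∀ p ∈ P i, p ≤ 4 ^ t
  hQl : ∀ j : Fin 3, ∀ q ∈ Q j, (4 ^ t) ^ (12 + (j : ℕ)) ≤ q
  hQu : ∀ j : Fin 3, ∀ q ∈ Q j, q ≤ (4 ^ t) ^ (13 + (j : ℕ))
  ht : k + 3 ≤ t

theorem XX_bounds {k t y : ℕ} {P : Fin k → Finset ℕ} {Q : Fin 3 → Finset ℕ}
    (D : Data k t y P Q) : ∀ n ∈ XX P Q, (4 ^ t) ^ 39 ≤ n ∧ n ≤ (4 ^ t) ^ 43 := by
  intro n hn
  unfold XX at hn
  rw [Finset.mem_image] at hn
  obtain ⟨⟨f, e⟩, hfe, rfl⟩ := hn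
  rw [Finset.mem_product] at hfe
  have hf := hfe.1
  have he := Fintype.mem_piFinset.1 hfe.2
  unfold nn
  simp only
  have hf1 : 1 ≤ ∏ i, f i := Nat.one_le_iff_ne_zero.2 (Finset.prod_ne_zero_iff.2 fun i _ =>
    (D.sys.primeP i _ (Fintype.mem_piFinset.1 hf i)).ne_zero)
  have hf2 := D.hf f hf
  rw [Fin.prod_univ_three]
  have l0 := D.hQl 0 _ (he 0)
  have l1 := D.hQl 1 _ (he 1)
  have l2 := D.hQl 2 _ (he 2)
  have u0 := D.hQu 0 _ (he 0)
  have u1 := D.hQu 1 _ (he 1)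
  have u2 := D.hQu 2 _ (he 2)
  generalize 4 ^ t = A at *
  simp only [Fin.val_zero, Fin.val_one, Fin.val_two, add_zero, Nat.reduceAdd] at l0 l1 l2 u0 u1 u2
  constructor
  · calc A ^ 39 = 1 * (A ^ 12 * A ^ 13 * A ^ 14) := by ring
      _ ≤ (∏ i, f i) * (e 0 * e 1 * e 2) := by gcongr
  · calc (∏ i, f i) * (e 0 * e 1 * e 2) ≤ A * (A ^ 13 * A ^ 14 * A ^ 15) := by gcongr
      _ = A ^ 43 := by ring

theorem unit_of_data {k t y : ℕ} {P : Fin k → Finset ℕ} {Q : Fin 3 → Finset ℕ}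
    (D : Data k t y P Q) (A₀ : Finset ℕ) (hA₀ : A₀ ⊆ XX P Q) (hw : 3 ≤ w A₀) :
    ∃ S ⊆ A₀, w S = 1 := by
  classical
  have hXb := XX_bounds D
  have hk := D.hk
  have hkt := D.ht
  have hyt := D.hyt
  have ht11 : 11 ≤ t := by omega
  have hQu := D.hQu
  have hQl := D.hQl
  have hPt := D.hPt
  obtain ⟨A, hA⟩ : ∃ A : ℕ, A = 4 ^ t := ⟨_, rfl⟩
  have htA : t < A := hA ▸ Nat.lt_pow_self (by norm_num)
  have hA11 : 4 ^ 11 ≤ A := hA ▸ Nat.pow_le_pow_right (by norm_num) ht11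
  obtain ⟨K, hK⟩ : ∃ K : ℕ, A ^ 39 = 4 * K := by
    refine ⟨4 ^ (t - 1) * A ^ 38, ?_⟩
    have h1 : A = 4 * 4 ^ (t - 1) := by
      rw [hA, ← pow_succ']
      congr 1
      omega
    calc A ^ 39 = A * A ^ 38 := by ring
      _ = (4 * 4 ^ (t - 1)) * A ^ 38 := by rw [← h1]
      _ = 4 * (4 ^ (t - 1) * A ^ 38) := by ring
  have hA39 : 2 * K < 2 ^ (y / 2) := by
    have h1 : 4 * K = 2 ^ (78 * t) := by
      rw [← hK, hA, ← pow_mul, show (4 : ℕ) = 2 ^ 2 from rfl, ← pow_mul]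
      congr 1
      ring
    have h2 : 2 ^ (78 * t) ≤ 2 ^ (y / 2) := Nat.pow_le_pow_right (by norm_num) (by omega)
    have h3 : 0 < 2 ^ (78 * t) := by positivity
    omega
  rw [← hA] at hXb hQu hQl hPt
  have hA0 : 0 < A := by omega
  have hKpos : 0 < K := by
    have : 0 < A ^ 39 := by positivity
    omega
  have hz : ∀ q, inB P Q q → q ≤ A ^ 15 := by
    rintro q (⟨i, hi⟩ | ⟨j, hj⟩)
    · exact (hPt i q hi).trans (Nat.le_self_pow (by norm_num) A)
    · refine (hQu j q hj).trans (Nat.pow_le_pow_right hA0 ?_)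
      have := j.2
      omega
  have hKe : ∀ e ∈ Fintype.piFinset Q, 2 * K < ∏ j, e j := by
    intro e he
    rw [Fintype.mem_piFinset] at he
    rw [Fin.prod_univ_three]
    have l0 := hQl 0 _ (he 0)
    have l1 := hQl 1 _ (he 1)
    have l2 := hQl 2 _ (he 2)
    simp only [Fin.val_zero, Fin.val_one, Fin.val_two, add_zero, Nat.reduceAdd] at l0 l1 l2
    calc 2 * K < 4 * K := by omega
      _ = A ^ 12 * A ^ 13 * A ^ 14 := by rw [← hK]; ring
      _ ≤ e 0 * e 1 * e 2 := by gcongr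
  -- trimming
  obtain ⟨τ, hτ⟩ : ∃ τ : ℝ, τ = 1 / (4 * ((k : ℝ) + 3)) := ⟨_, rfl⟩
  have hτ0 : 0 < τ := by rw [hτ]; positivity
  have hwblk : w (blk P Q) ≤ 2 * ((k : ℝ) + 3) := by
    have h1 : w (blk P Q) ≤ w (Finset.univ.biUnion P) + w (Finset.univ.biUnion Q) := by
      unfold w blk
      rw [← Finset.sum_union_inter]
      have : 0 ≤ ∑ n ∈ Finset.univ.biUnion P ∩ Finset.univ.biUnion Q, (1 : ℝ) / n :=
        w_nonneg _
      linarith
    have h2 : w (Finset.univ.biUnion P) = ∑ i, w (P i) := by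
      unfold w
      exact Finset.sum_biUnion fun i _ i' _ h => D.sys.disjP i i' h
    have h3 : w (Finset.univ.biUnion Q) = ∑ j, w (Q j) := by
      unfold w
      exact Finset.sum_biUnion fun i _ i' _ h => D.sys.disjQ i i' h
    have h4 : ∑ i, w (P i) ≤ ∑ _i : Fin k, (21 / 20 : ℝ) := Finset.sum_le_sum fun i _ => D.wP i
    have h5 : ∑ j, w (Q j) ≤ ∑ _j : Fin 3, (1 : ℝ) := Finset.sum_le_sum fun j _ => D.wQ j
    simp only [Finset.sum_const, Finset.card_univ, Fintype.card_fin, nsmul_eq_mul] at h4 h5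
    have h6 : (0 : ℝ) ≤ k := Nat.cast_nonneg k
    rw [h2, h3] at h1
    push_cast at h5
    linarith
  have hcard : ((blk P Q).card : ℝ) ≤ (A : ℝ) ^ 15 := by
    have h1 : (blk P Q).card ≤ (Finset.Icc 1 (A ^ 15)).card := by
      apply Finset.card_le_card
      intro q hq
      rw [mem_blk] at hq
      rw [Finset.mem_Icc]
      exact ⟨(inB_prime D.sys hq).pos, hz q hq⟩
    rw [Nat.card_Icc, Nat.add_sub_cancel] at h1
    exact_mod_cast h1
  have hAr : (4 ^ 11 : ℝ) ≤ A := by exact_mod_cast hA11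
  have hAr0 : (0 : ℝ) < A := by exact_mod_cast hA0
  have hN0 : 0 < A ^ 39 := by positivity
  obtain ⟨C, hCA, hC1, hC2, hC3⟩ := trim A₀ (blk P Q) τ (A ^ 39) hN0
    (fun n hn => (hXb n (hA₀ hn)).1) hτ0.le (fun q hq => (inB_prime D.sys (mem_blk.1 hq)).pos)
    (by
      have h1 : τ * w (blk P Q) ≤ 1 / 2 := by
        have h2 : τ * w (blk P Q) ≤ τ * (2 * ((k : ℝ) + 3)) :=
          mul_le_mul_of_nonneg_left hwblk hτ0.le
        have h3 : τ * (2 * ((k : ℝ) + 3)) = 1 / 2 := by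
          rw [hτ]; field_simp; norm_num
        linarith
      have h4 : ((blk P Q).card : ℝ) / ((A ^ 39 : ℕ) : ℝ) ≤ 1 / 2 := by
        rw [div_le_iff₀ (by positivity)]
        push_cast
        have h5 : (A : ℝ) ^ 39 = A ^ 15 * A ^ 24 := by ring
        have h6 : (2 : ℝ) ≤ A ^ 24 := by
          calc (2 : ℝ) ≤ 4 ^ 11 := by norm_num
            _ ≤ A := hAr
            _ ≤ A ^ 24 := le_self_pow₀ (by linarith) (by norm_num)
        rw [h5]
        have h7 : (0 : ℝ) < (A : ℝ) ^ 15 := by positivity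
        nlinarith
      linarith) hw
  have hCX : C ⊆ XX P Q := hCA.trans hA₀
  have hCN : ∀ n ∈ C, A ^ 39 ≤ n := fun n hn => (hXb n (hCX hn)).1
  have hCpos : ∀ n ∈ C, 0 < n := fun n hn => hN0.trans_le (hCN n hn)
  have hCne : C.Nonempty := by
    rw [Finset.nonempty_iff_ne_empty]
    rintro rfl
    have h1 : w ∅ = 0 := Finset.sum_empty
    rw [h1] at hC1
    have h2 : 1 / ((A ^ 39 : ℕ) : ℝ) ≤ 1 := by
      rw [div_le_one (by positivity)]
      exact_mod_cast hN0
    linarith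
  obtain ⟨PP, hPP0, hPP4, hPPd, hPPx⟩ := exists_modulus D.sys C hCX (A ^ 15) hz
  have hcirc := circle C PP (A ^ 39) K hPP0 hPPd hN0 hCN hK.symm.le hC1 hC2 ?_ ?_
  · obtain ⟨S, hSC, hS⟩ := hcirc
    exact ⟨S, hSC.trans hCA, hS⟩
  · intro h hminor
    obtain ⟨E, hE⟩ : ∃ E : Finset ℕ, E = C.filter (fun n : ℕ => ∀ x : ℤ, |x - h| ≤ K →
      ¬ (n : ℤ) ∣ x) := ⟨_, rfl⟩
    have hwE : τ / (2 * ((A ^ 15 : ℕ) : ℝ)) ≤ w E := by
      refine lemmaD D.sys hk D.wP D.wQ C hCX hCne τ hτ0 ?_ (A ^ 15) y K D.hy (by omega) hA39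
        hz hKe (fun q hq hqC => hC3 q (mem_blk.2 hq) hqC) PP hPPx h hminor E ?_
      · have := D.hη
        have h2 : τ / 4 = 1 / (16 * ((k : ℝ) + 3)) := by rw [hτ]; field_simp; norm_num
        rw [h2]; exact this
      · intro n hn hnE
        by_contra hcon
        push Not at hcon
        apply hnE
        rw [hE, Finset.mem_filter]
        exact ⟨hn, hcon⟩
    have hF := FF_minor C (A ^ 43) K hCpos (fun n hn => (hXb n (hCX hn)).2) h E
      (by rw [hE]; exact Finset.filter_subset _ _) (by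
        intro n hn
        rw [hE, Finset.mem_filter] at hn
        exact hn.2)
    refine hF.trans ?_
    have hdiv : (2 : ℝ) ^ C.card / (2 * (PP : ℝ)) = 2 ^ C.card * (2 * (PP : ℝ))⁻¹ :=
      div_eq_mul_inv _ _
    rw [hdiv]
    refine mul_le_mul_of_nonneg_left ?_ (by positivity)
    have hexp : (2 * (PP : ℝ)) ≤ Real.exp (2 * (K : ℝ) ^ 2 * w E / ((A ^ 43 : ℕ) : ℝ)) := by
      have h1 : (PP : ℝ) ≤ 4 ^ (A ^ 15) := by exact_mod_cast hPP4
      have h2 : (2 : ℝ) ≤ Real.exp 1 := by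
        have := Real.add_one_le_exp 1; linarith
      have h3 : (2 * (PP : ℝ)) ≤ Real.exp (3 * (A : ℝ) ^ 15) := by
        have h4 : (4 : ℝ) ^ (A ^ 15) = 2 ^ (2 * A ^ 15) := by
          rw [pow_mul]; norm_num
        calc 2 * (PP : ℝ) ≤ 2 * 2 ^ (2 * A ^ 15) := by rw [← h4]; linarith
          _ = 2 ^ (2 * A ^ 15 + 1) := by ring
          _ ≤ Real.exp 1 ^ (2 * A ^ 15 + 1) := by gcongr
          _ = Real.exp (2 * (A : ℝ) ^ 15 + 1) := by
              rw [← Real.exp_nat_mul]; push_cast; ring_nf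
          _ ≤ Real.exp (3 * (A : ℝ) ^ 15) := by
              apply Real.exp_le_exp.2
              have : (1 : ℝ) ≤ (A : ℝ) ^ 15 := one_le_pow₀ (by linarith)
              linarith
      refine h3.trans (Real.exp_le_exp.2 ?_)
      have hKr : (K : ℝ) = (A : ℝ) ^ 39 / 4 := by
        have : ((A ^ 39 : ℕ) : ℝ) = ((4 * K : ℕ) : ℝ) := by rw [hK]
        push_cast at this
        linarith
      have hτt : 1 / (4 * (A : ℝ)) ≤ τ := by
        rw [hτ]
        apply one_div_le_one_div_of_le (by positivity)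
        have h5 : ((k : ℝ) + 3) ≤ A := by
          have : k + 3 ≤ A := by omega
          exact_mod_cast this
        linarith
      rw [le_div_iff₀ (by positivity), hKr]
      push_cast at hwE ⊢
      have h6 : 1 / (4 * (A : ℝ)) / (2 * (A : ℝ) ^ 15) ≤ w E :=
        (div_le_div_of_nonneg_right hτt (by positivity)).trans hwE
      have h7 : 1 / (4 * (A : ℝ)) / (2 * (A : ℝ) ^ 15) = 1 / (8 * (A : ℝ) ^ 16) := by
        field_simp
        norm_num
      rw [h7] at h6
      calc 3 * (A : ℝ) ^ 15 * A ^ 43 = 3 * (A : ℝ) ^ 58 := by ring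
        _ ≤ (A : ℝ) ^ 62 / 64 := by
            have h8 : (192 : ℝ) ≤ (A : ℝ) ^ 4 := by
              calc (192 : ℝ) ≤ 4 ^ 11 := by norm_num
                _ ≤ A := hAr
                _ ≤ A ^ 4 := le_self_pow₀ (by linarith) (by norm_num)
            have h9 : (A : ℝ) ^ 62 = A ^ 58 * A ^ 4 := by ring
            rw [h9]
            have h10 : (0 : ℝ) < (A : ℝ) ^ 58 := by positivity
            nlinarith
        _ = 2 * ((A : ℝ) ^ 39 / 4) ^ 2 * (1 / (8 * (A : ℝ) ^ 16)) := by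
            field_simp
            norm_num
        _ ≤ 2 * ((A : ℝ) ^ 39 / 4) ^ 2 * w E := by gcongr
    have h11 : -2 * (K : ℝ) ^ 2 * w E / ((A ^ 43 : ℕ) : ℝ)
        = -(2 * (K : ℝ) ^ 2 * w E / ((A ^ 43 : ℕ) : ℝ)) := by ring
    rw [h11, Real.exp_neg]
    exact inv_anti₀ (by positivity) hexp
  · -- many elements
    have h1 : w C ≤ (C.card : ℝ) * (1 / ((A ^ 39 : ℕ) : ℝ)) := by
      unfold w
      rw [← nsmul_eq_mul]
      refine Finset.sum_le_card_nsmul _ _ _ fun n hn => ?_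
      apply one_div_le_one_div_of_le (by positivity)
      exact_mod_cast hCN n hn
    have h2 : A ^ 39 ≤ C.card := by
      by_contra hlt
      push Not at hlt
      have h3 : (C.card : ℝ) + 1 ≤ ((A ^ 39 : ℕ) : ℝ) := by exact_mod_cast hlt
      have h4 : (0 : ℝ) < ((A ^ 39 : ℕ) : ℝ) := by positivity
      have h5 : (C.card : ℝ) * (1 / ((A ^ 39 : ℕ) : ℝ)) ≤ 1 := by
        rw [mul_one_div, div_le_one h4]; linarith
      have h6 : 1 / ((A ^ 39 : ℕ) : ℝ) < 1 := by
        rw [div_lt_one h4]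
        have : 1 < A ^ 39 := Nat.one_lt_pow (by norm_num) (by omega)
        exact_mod_cast this
      linarith
    have h7 : 2 * A ^ 15 + 1 < A ^ 39 := by
      have h8 : A ^ 39 = A ^ 15 * A ^ 24 := by ring
      have h9 : 4 ≤ A ^ 24 := by
        calc 4 ≤ A := by omega
          _ ≤ A ^ 24 := Nat.le_self_pow (by norm_num) A
      have h10 : 1 ≤ A ^ 15 := Nat.one_le_pow _ _ hA0
      rw [h8]
      nlinarith
    calc 2 * PP ≤ 2 * 4 ^ (A ^ 15) := by omega
      _ = 2 ^ (2 * A ^ 15 + 1) := by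
          have h12 : (4 : ℕ) ^ (A ^ 15) = 2 ^ (2 * A ^ 15) := by rw [pow_mul]; norm_num
          rw [h12, mul_comm, ← pow_succ]
      _ < 2 ^ C.card := Nat.pow_lt_pow_right (by norm_num) (by omega)

/-! choice of the parameters -/

/-- primes in a range -/
def pr (a b : ℕ) : Finset ℕ := (Finset.Ioc (4 ^ a) (4 ^ b)).filter Nat.Prime

theorem mem_pr {a b p : ℕ} : p ∈ pr a b ↔ (4 ^ a < p ∧ p ≤ 4 ^ b) ∧ p.Prime := by
  unfold pr
  rw [Finset.mem_filter, Finset.mem_Ioc]

theorem w_pr_split {a b c : ℕ} (hab : a ≤ b) (hbc : b ≤ c) :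
    w (pr a c) = w (pr a b) + w (pr b c) := by
  have h1 : pr a c = pr a b ∪ pr b c := by
    ext p
    rw [Finset.mem_union, mem_pr, mem_pr, mem_pr]
    have h2 : 4 ^ a ≤ 4 ^ b := Nat.pow_le_pow_right (by norm_num) hab
    have h3 : 4 ^ b ≤ 4 ^ c := Nat.pow_le_pow_right (by norm_num) hbc
    constructor
    · rintro ⟨⟨h4, h5⟩, h6⟩
      by_cases h : p ≤ 4 ^ b
      · exact Or.inl ⟨⟨h4, h⟩, h6⟩
      · exact Or.inr ⟨⟨by omega, h5⟩, h6⟩
    · rintro (⟨⟨h4, h5⟩, h6⟩ | ⟨⟨h4, h5⟩, h6⟩)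
      · exact ⟨⟨h4, by omega⟩, h6⟩
      · exact ⟨⟨by omega, h5⟩, h6⟩
  have h2 : Disjoint (pr a b) (pr b c) := by
    rw [Finset.disjoint_left]
    intro p hp hp'
    rw [mem_pr] at hp hp'
    omega
  unfold w
  rw [h1, Finset.sum_union h2]

theorem w_pr_double {j₀ : ℕ} (hj₀ : 1 ≤ j₀) (h : ∀ a b : ℕ, j₀ ≤ a → a ≤ b →
    ((b : ℝ) - a) / (8 * b) ≤ w (pr a b)) (a : ℕ) (ha : j₀ ≤ a) (m : ℕ) :
    (m : ℝ) / 16 ≤ w (pr a (a * 2 ^ m)) := by
  induction m with
  | zero => simp [w_nonneg]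
  | succ m ih =>
    have h1 : a ≤ a * 2 ^ m := Nat.le_mul_of_pos_right _ (by positivity)
    have h2 : a * 2 ^ m ≤ a * 2 ^ (m + 1) :=
      Nat.mul_le_mul_left _ (Nat.pow_le_pow_right (by norm_num) (Nat.le_succ m))
    rw [w_pr_split h1 h2]
    have h3 := h (a * 2 ^ m) (a * 2 ^ (m + 1)) (ha.trans h1) h2
    have h4 : (((a * 2 ^ (m + 1) : ℕ) : ℝ) - ((a * 2 ^ m : ℕ) : ℝ)) / (8 * ((a * 2 ^ (m + 1) : ℕ) : ℝ))
        = 1 / 16 := by
      have ha0 : (0 : ℝ) < a := by
        have : 0 < a := by omega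
        exact_mod_cast this
      push_cast
      rw [pow_succ]
      field_simp
      norm_num
    rw [h4] at h3
    push_cast
    linarith

theorem exists_k (R : ℝ) : ∃ k : ℕ, 8 ≤ k ∧ (49 / 50 : ℝ) ^ (k / 4) < 1 / (16 * ((k : ℝ) + 3)) ∧
    R * 120 ^ 3 ≤ (51 / 50 : ℝ) ^ k := by
  have h1 : Filter.Tendsto (fun m : ℕ => 64 * ((m : ℝ) * (49 / 50 : ℝ) ^ m) + 48 * (49 / 50 : ℝ) ^ m)
      Filter.atTop (nhds (64 * 0 + 48 * 0)) :=
    ((tendsto_self_mul_const_pow_of_lt_one (by norm_num) (by norm_num)).const_mul 64).add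
      ((tendsto_pow_atTop_nhds_zero_of_lt_one (by norm_num) (by norm_num)).const_mul 48)
  have h2 : ∀ᶠ m : ℕ in Filter.atTop,
      64 * ((m : ℝ) * (49 / 50 : ℝ) ^ m) + 48 * (49 / 50 : ℝ) ^ m < 1 :=
    h1.eventually (gt_mem_nhds (by norm_num))
  have h3 : ∀ᶠ m : ℕ in Filter.atTop, R * 120 ^ 3 ≤ (51 / 50 : ℝ) ^ m :=
    (tendsto_pow_atTop_atTop_of_one_lt (by norm_num)).eventually_ge_atTop _
  obtain ⟨m, hm1, hm2, hm3⟩ := (h2.and (h3.and (Filter.eventually_ge_atTop 2))).exists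
  refine ⟨4 * m, by omega, ?_, ?_⟩
  · rw [Nat.mul_div_cancel_left m (by norm_num), lt_div_iff₀ (by positivity)]
    push_cast
    nlinarith
  · exact hm2.trans (pow_le_pow_right₀ (by norm_num) (by omega))

theorem exists_data (R : ℝ) (N₀ : ℕ) : ∃ (k t y : ℕ) (P : Fin k → Finset ℕ)
    (Q : Fin 3 → Finset ℕ), Data k t y P Q ∧ R ≤ w (XX P Q) ∧ ∀ n ∈ XX P Q, N₀ ≤ n := by
  obtain ⟨k, hk8, hkη, hkR⟩ := exists_k R
  obtain ⟨j₀, hj₀, hcheb⟩ := cheb_range
  have hcheb' : ∀ a b : ℕ, j₀ ≤ a → a ≤ b → ((b : ℝ) - a) / (8 * b) ≤ w (pr a b) := hcheb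
  obtain ⟨M, hM⟩ : ∃ M : ℕ, M = 2 ^ (17 * k) := ⟨_, rfl⟩
  have hM0 : 0 < M := by rw [hM]; positivity
  obtain ⟨a, ha⟩ : ∃ a : ℕ, a = j₀ + 3 + N₀ + 160 * k * M := ⟨_, rfl⟩
  obtain ⟨t, ht⟩ : ∃ t : ℕ, t = a * k * M := ⟨_, rfl⟩
  have ha0 : 0 < a := by omega
  have haM : a * M ≤ t := by
    rw [ht]
    calc a * M = a * 1 * M := by ring
      _ ≤ a * k * M := by gcongr; omega
  have hat : a ≤ t := (Nat.le_mul_of_pos_right a hM0).trans haM
  have hj₀t : j₀ ≤ t := by omega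
  have ht0 : 0 < t := by omega
  have hyt : 160 * t ≤ 4 ^ a := by
    have h1 : 160 * k * M ≤ a := by omega
    have h2 : a < 2 ^ a := Nat.lt_two_pow_self
    have h3 : (4 : ℕ) ^ a = 2 ^ a * 2 ^ a := by
      rw [← mul_pow]
      norm_num
    calc 160 * t = a * (160 * k * M) := by rw [ht]; ring
      _ ≤ a * a := Nat.mul_le_mul_left _ h1
      _ ≤ 2 ^ a * 2 ^ a := Nat.mul_le_mul h2.le h2.le
      _ = 4 ^ a := h3.symm
  have h4a : 64 ≤ 4 ^ a := by
    calc 64 = 4 ^ 3 := by norm_num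
      _ ≤ 4 ^ a := Nat.pow_le_pow_right (by norm_num) (by omega)
  have h4ar : (64 : ℝ) ≤ ((4 ^ a : ℕ) : ℝ) := by exact_mod_cast h4a
  have hsmall : 1 / ((4 ^ a : ℕ) : ℝ) ≤ 1 / 64 :=
    one_div_le_one_div_of_le (by norm_num) h4ar
  -- small blocks
  have hP : ∀ i : Fin k, ∃ V ⊆ pr (a * 2 ^ (17 * (i : ℕ))) (a * 2 ^ (17 * ((i : ℕ) + 1))),
      51 / 50 ≤ w V ∧ w V ≤ 51 / 50 + 1 / ((4 ^ a : ℕ) : ℝ) := by
    intro i
    have h1 : a ≤ a * 2 ^ (17 * (i : ℕ)) := Nat.le_mul_of_pos_right _ (by positivity)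
    refine exists_subset_weight _ (4 ^ a) (by positivity) ?_ _ (by norm_num) ?_
    · intro n hn
      rw [mem_pr] at hn
      exact (Nat.pow_le_pow_right (by norm_num) h1).trans hn.1.1.le
    · have h2 := w_pr_double hj₀ hcheb' (a * 2 ^ (17 * (i : ℕ))) (by omega) 17
      have h3 : a * 2 ^ (17 * (i : ℕ)) * 2 ^ 17 = a * 2 ^ (17 * ((i : ℕ) + 1)) := by
        rw [mul_assoc, ← pow_add]
        rfl
      rw [h3] at h2
      push_cast at h2
      linarith
  choose P hPsub hPl hPu using hP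
  have hQ : ∀ j : Fin 3, ∃ V ⊆ pr ((12 + (j : ℕ)) * t) ((13 + (j : ℕ)) * t),
      1 / 120 ≤ w V ∧ w V ≤ 1 / 120 + 1 / ((4 ^ a : ℕ) : ℝ) := by
    intro j
    refine exists_subset_weight _ (4 ^ a) (by positivity) ?_ _ (by norm_num) ?_
    · intro n hn
      rw [mem_pr] at hn
      refine (Nat.pow_le_pow_right (by norm_num) ?_).trans hn.1.1.le
      calc a ≤ t := hat
        _ ≤ (12 + (j : ℕ)) * t := Nat.le_mul_of_pos_left _ (by omega)
    · have h2 := hcheb' ((12 + (j : ℕ)) * t) ((13 + (j : ℕ)) * t)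
        (hj₀t.trans (Nat.le_mul_of_pos_left _ (by omega))) (Nat.mul_le_mul_right _ (by omega))
      refine le_trans ?_ h2
      have hj : ((j : ℕ) : ℝ) ≤ 2 := by
        have := j.2
        have : (j : ℕ) ≤ 2 := by omega
        exact_mod_cast this
      have htr : (0 : ℝ) < t := by exact_mod_cast ht0
      push_cast
      rw [div_le_div_iff₀ (by norm_num) (by positivity)]
      nlinarith
  choose Q hQsub hQl hQu using hQ
  have hPmem : ∀ i, ∀ p ∈ P i, (4 ^ (a * 2 ^ (17 * (i : ℕ))) < p ∧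
      p ≤ 4 ^ (a * 2 ^ (17 * ((i : ℕ) + 1)))) ∧ p.Prime := fun i p hp => mem_pr.1 (hPsub i hp)
  have hQmem : ∀ j, ∀ q ∈ Q j, (4 ^ ((12 + (j : ℕ)) * t) < q ∧
      q ≤ 4 ^ ((13 + (j : ℕ)) * t)) ∧ q.Prime := fun j q hq => mem_pr.1 (hQsub j hq)
  have hPM : ∀ i, ∀ p ∈ P i, p ≤ 4 ^ (a * M) := by
    intro i p hp
    refine (hPmem i p hp).1.2.trans (Nat.pow_le_pow_right (by norm_num) ?_)
    rw [hM]
    refine Nat.mul_le_mul_left _ (Nat.pow_le_pow_right (by norm_num) ?_)
    have := i.2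
    omega
  have hPlt : ∀ i i' : Fin k, i < i' → Disjoint (P i) (P i') := by
    intro i i' hii
    rw [Finset.disjoint_left]
    intro p hp hp'
    have h1 := (hPmem i p hp).1.2
    have h2 := (hPmem i' p hp').1.1
    have h3 : 4 ^ (a * 2 ^ (17 * ((i : ℕ) + 1))) ≤ 4 ^ (a * 2 ^ (17 * (i' : ℕ))) := by
      refine Nat.pow_le_pow_right (by norm_num) (Nat.mul_le_mul_left _
        (Nat.pow_le_pow_right (by norm_num) ?_))
      have : (i : ℕ) < i' := hii
      omega
    omega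
  have hQlt : ∀ j j' : Fin 3, j < j' → Disjoint (Q j) (Q j') := by
    intro j j' hjj
    rw [Finset.disjoint_left]
    intro p hp hp'
    have h1 := (hQmem j p hp).1.2
    have h2 := (hQmem j' p hp').1.1
    have h3 : 4 ^ ((13 + (j : ℕ)) * t) ≤ 4 ^ ((12 + (j' : ℕ)) * t) := by
      refine Nat.pow_le_pow_right (by norm_num) (Nat.mul_le_mul_right _ ?_)
      have : (j : ℕ) < j' := hjj
      omega
    omega
  have hsys : Sys k P Q :=
    { primeP := fun i p hp => (hPmem i p hp).2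
      primeQ := fun j q hq => (hQmem j q hq).2
      disjP := fun i i' hne => by
        rcases lt_or_gt_of_ne hne with h | h
        · exact hPlt i i' h
        · exact (hPlt i' i h).symm
      disjQ := fun j j' hne => by
        rcases lt_or_gt_of_ne hne with h | h
        · exact hQlt j j' h
        · exact (hQlt j' j h).symm
      disjPQ := fun i j => by
        rw [Finset.disjoint_left]
        intro p hp hp'
        have h1 := hPM i p hp
        have h2 := (hQmem j p hp').1.1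
        have h3 : 4 ^ (a * M) ≤ 4 ^ ((12 + (j : ℕ)) * t) :=
          Nat.pow_le_pow_right (by norm_num) (haM.trans (Nat.le_mul_of_pos_left _ (by omega)))
        omega }
  have D : Data k t (4 ^ a) P Q :=
    { sys := hsys
      hk := hk8
      hη := hkη
      wP := fun i => by
        have := hPu i
        linarith
      wQ := fun j => by
        have := hQu j
        linarith
      hy := fun i p hp => by
        have h1 : a ≤ a * 2 ^ (17 * (i : ℕ)) := Nat.le_mul_of_pos_right _ (by positivity)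
        exact (Nat.pow_le_pow_right (by norm_num) h1).trans (hPmem i p hp).1.1.le
      hyt := hyt
      hf := fun f hf => by
        rw [Fintype.mem_piFinset] at hf
        calc ∏ i, f i ≤ ∏ _i : Fin k, 4 ^ (a * M) :=
              Finset.prod_le_prod' fun i _ => hPM i _ (hf i)
          _ = 4 ^ t := by
              rw [Finset.prod_const, Finset.card_univ, Fintype.card_fin, ← pow_mul, ht]
              congr 1
              ring
      hPt := fun i p hp => (hPM i p hp).trans (Nat.pow_le_pow_right (by norm_num) haM)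
      hQl := fun j q hq => by
        rw [← pow_mul, mul_comm]
        exact (hQmem j q hq).1.1.le
      hQu := fun j q hq => by
        rw [← pow_mul, mul_comm]
        exact (hQmem j q hq).1.2
      ht := by
        calc k + 3 ≤ 3 * k * 1 := by omega
          _ ≤ a * k * M := by
              gcongr
              · omega
              · omega
          _ = t := ht.symm }
  refine ⟨k, t, 4 ^ a, P, Q, D, ?_, ?_⟩
  · rw [w_XX hsys]
    have h1 : (51 / 50 : ℝ) ^ k ≤ ∏ i, w (P i) := by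
      calc (51 / 50 : ℝ) ^ k = ∏ _i : Fin k, (51 / 50 : ℝ) := by
            rw [Finset.prod_const, Finset.card_univ, Fintype.card_fin]
        _ ≤ ∏ i, w (P i) := Finset.prod_le_prod (fun i _ => by norm_num) fun i _ => hPl i
    have h2 : (1 / 120 : ℝ) ^ 3 ≤ ∏ j, w (Q j) := by
      calc (1 / 120 : ℝ) ^ 3 = ∏ _j : Fin 3, (1 / 120 : ℝ) := by
            rw [Finset.prod_const, Finset.card_univ, Fintype.card_fin]
        _ ≤ ∏ j, w (Q j) := Finset.prod_le_prod (fun i _ => by norm_num) fun j _ => hQl j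
    calc R = (R * 120 ^ 3) * (1 / 120) ^ 3 := by ring
      _ ≤ (51 / 50) ^ k * (1 / 120) ^ 3 := by gcongr
      _ ≤ (∏ i, w (P i)) * ∏ j, w (Q j) := by
          refine mul_le_mul h1 h2 (by positivity) ?_
          exact Finset.prod_nonneg fun i _ => w_nonneg _
  · intro n hn
    have h1 := (XX_bounds D n hn).1
    have h2 : t < 4 ^ t := Nat.lt_pow_self (by norm_num)
    have h3 : 4 ^ t ≤ (4 ^ t) ^ 39 := Nat.le_self_pow (by norm_num) _
    omega

/-- monochromatic representations of 1, with all denominators large -/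
theorem mono_one (r : ℕ) (χ : ℕ → Fin r) (N₀ : ℕ) :
    ∃ c, ∃ S : Finset ℕ, (∀ n ∈ S, N₀ ≤ n ∧ χ n = c) ∧ w S = 1 := by
  classical
  obtain ⟨k, t, y, P, Q, D, hR, hN⟩ := exists_data (3 * r) N₀
  have hex : ∃ c, 3 ≤ w ((XX P Q).filter (fun n => χ n = c)) := by
    by_contra hcon
    push Not at hcon
    have h1 : w (XX P Q) = ∑ c : Fin r, w ((XX P Q).filter (fun n => χ n = c)) := by
      unfold w
      rw [Finset.sum_fiberwise]
    have hr : (Finset.univ : Finset (Fin r)).Nonempty := ⟨χ 0, Finset.mem_univ _⟩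
    have h2 : ∑ c : Fin r, w ((XX P Q).filter (fun n => χ n = c)) < ∑ _c : Fin r, (3 : ℝ) :=
      Finset.sum_lt_sum_of_nonempty hr fun c _ => hcon c
    rw [Finset.sum_const, Finset.card_univ, Fintype.card_fin, nsmul_eq_mul, ← h1] at h2
    linarith
  obtain ⟨c, hc⟩ := hex
  obtain ⟨S, hS, hw⟩ := unit_of_data D _ (Finset.filter_subset _ _) hc
  refine ⟨c, S, fun n hn => ?_, hw⟩
  have := hS hn
  rw [Finset.mem_filter] at this
  exact ⟨hN n this.1, this.2⟩

/-! the partition theorem -/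

/-- reciprocal sum in `ℚ` -/
theorem sum_cast_eq {S : Finset ℕ} (h : w S = 1) : ∑ n ∈ S, 1 / (n : ℚ) = 1 := by
  have h1 : ((∑ n ∈ S, 1 / (n : ℚ) : ℚ) : ℝ) = 1 := by
    push_cast
    exact h
  exact_mod_cast h1

/-- monochromatic representations of `1/D` -/
theorem mono_inv (r : ℕ) (χ : ℕ → Fin r) (D : ℕ) (hD : 0 < D) (N₀ : ℕ) :
    ∃ c, ∃ S : Finset ℕ, (∀ n ∈ S, N₀ < n ∧ χ n = c) ∧ ∑ n ∈ S, 1 / (n : ℚ) = 1 / D := by
  classical
  obtain ⟨c, S, hS, hw⟩ := mono_one r (fun n => χ (D * n)) (N₀ + 1)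
  refine ⟨c, S.image (fun n => D * n), ?_, ?_⟩
  · intro n hn
    rw [Finset.mem_image] at hn
    obtain ⟨m, hm, rfl⟩ := hn
    obtain ⟨h1, h2⟩ := hS m hm
    exact ⟨lt_of_lt_of_le h1 (Nat.le_mul_of_pos_left _ hD), h2⟩
  · rw [Finset.sum_image (fun x _ y _ hxy => Nat.eq_of_mul_eq_mul_left hD hxy)]
    have h1 : ∀ n ∈ S, 1 / ((D * n : ℕ) : ℚ) = 1 / D * (1 / n) := by
      intro n _
      push_cast
      rw [one_div_mul_one_div]
    rw [Finset.sum_congr rfl h1, ← Finset.mul_sum, sum_cast_eq hw, mul_one]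

/-- one colour which works for arbitrarily large denominators -/
theorem mono_inv_unif (r : ℕ) (χ : ℕ → Fin r) (D : ℕ) (hD : 0 < D) :
    ∃ c, ∀ N₀ : ℕ, ∃ S : Finset ℕ, (∀ n ∈ S, N₀ < n ∧ χ n = c) ∧
      ∑ n ∈ S, 1 / (n : ℚ) = 1 / D := by
  classical
  by_contra hcon
  push Not at hcon
  choose N hN using hcon
  obtain ⟨c, S, hS, hw⟩ := mono_inv r χ D hD (Finset.univ.sup N)
  refine hN c S (fun n hn => ⟨lt_of_le_of_lt (Finset.le_sup (Finset.mem_univ c)) (hS n hn).1,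
    (hS n hn).2⟩) hw

/-- multiples of `1/D` -/
theorem mono_mul (r : ℕ) (χ : ℕ → Fin r) (D : ℕ) (c : Fin r)
    (h : ∀ N₀ : ℕ, ∃ S : Finset ℕ, (∀ n ∈ S, N₀ < n ∧ χ n = c) ∧
      ∑ n ∈ S, 1 / (n : ℚ) = 1 / D) (j : ℕ) :
    ∀ N₀ : ℕ, ∃ S : Finset ℕ, (∀ n ∈ S, N₀ < n ∧ χ n = c) ∧
      ∑ n ∈ S, 1 / (n : ℚ) = j / D := by
  classical
  induction j with
  | zero => intro N₀; exact ⟨∅, by simp, by simp⟩
  | succ j ih =>
    intro N₀
    obtain ⟨S, hS, hw⟩ := ih N₀
    obtain ⟨T, hT, hv⟩ := h (max N₀ (S.sup id))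
    have hdisj : Disjoint S T := by
      rw [Finset.disjoint_left]
      intro n hn hn'
      have h1 : n ≤ S.sup id := Finset.le_sup (f := id) hn
      have h2 := (hT n hn').1
      have h3 := lt_of_le_of_lt (le_max_right N₀ (S.sup id)) h2
      omega
    refine ⟨S ∪ T, ?_, ?_⟩
    · intro n hn
      rw [Finset.mem_union] at hn
      rcases hn with hn | hn
      · exact hS n hn
      · exact ⟨lt_of_le_of_lt (le_max_left _ _) (hT n hn).1, (hT n hn).2⟩
    · rw [Finset.sum_union hdisj, hw, hv]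
      push_cast
      ring

/-- one colour represents all positive rationals -/
theorem mono_all (r : ℕ) (χ : ℕ → Fin r) : ∃ c, ∀ q : ℚ, 0 < q → ∀ N₀ : ℕ,
    ∃ S : Finset ℕ, (∀ n ∈ S, N₀ < n ∧ χ n = c) ∧ ∑ n ∈ S, 1 / (n : ℚ) = q := by
  classical
  choose c hc using fun D : ℕ => mono_inv_unif r χ (D.factorial) D.factorial_pos
  obtain ⟨c₀, hc₀⟩ : ∃ c₀, ∀ M : ℕ, ∃ D ≥ M, c D = c₀ := by
    by_contra hcon
    push Not at hcon
    choose M hM using hcon
    exact hM (c (Finset.univ.sup M)) _ (Finset.le_sup (Finset.mem_univ _)) rfl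
  refine ⟨c₀, fun q hq N₀ => ?_⟩
  obtain ⟨D, hD, hcD⟩ := hc₀ q.den
  obtain ⟨m, hm⟩ : q.den ∣ D.factorial := Nat.dvd_factorial q.den_pos hD
  have h1 := mono_mul r χ D.factorial c₀ (hcD ▸ hc D) (q.num.toNat * m) N₀
  obtain ⟨S, hS, hw⟩ := h1
  refine ⟨S, hS, ?_⟩
  rw [hw, hm]
  have hnum : ((q.num.toNat : ℕ) : ℚ) = (q.num : ℚ) := by
    have h2 : ((q.num.toNat : ℕ) : ℤ) = q.num := Int.toNat_of_nonneg (Rat.num_pos.2 hq).le
    exact_mod_cast h2
  have hm0 : (m : ℚ) ≠ 0 := by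
    rintro h0
    have h0' : m = 0 := by exact_mod_cast h0
    rw [h0', mul_zero] at hm
    exact (Nat.factorial_pos D).ne' hm
  have hd0 : (q.den : ℚ) ≠ 0 := by exact_mod_cast q.den_ne_zero
  push_cast
  rw [hnum, mul_div_mul_right _ _ hm0]
  exact Rat.num_div_den q

/-- Hahn's question: every finite partition of the positive integers has a class which represents
every positive rational number; so `s = 1` is admissible, and with it every `s ≥ 1`. -/
theorem result :
    (∀ (k : ℕ) (C : Fin k → Set ℕ), IsPartition C → ∃ i, ∀ q : ℚ, 0 < q → Rep (C i) q) ∧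
    (∀ s : ℕ, 1 ≤ s → Admissible s) := by
  classical
  have key : ∀ (k : ℕ) (C : Fin k → Set ℕ), IsPartition C → ∃ i, ∀ q : ℚ, 0 < q → ∀ N : ℕ,
      ∃ F : Finset ℕ, F.Nonempty ∧ (F : Set ℕ) ⊆ C i ∧ (∀ a ∈ F, N < a) ∧
        q = ∑ a ∈ F, 1 / (a : ℚ) := by
    intro k C hC
    have hcov : ∀ n : ℕ, 0 < n → ∃ i, n ∈ C i := by
      intro n hn
      have : n ∈ ⋃ i, C i := by rw [hC.cover]; exact hn
      exact Set.mem_iUnion.1 this
    obtain ⟨i₁, -⟩ := hcov 1 one_pos
    obtain ⟨χ, hχ⟩ : ∃ χ : ℕ → Fin k, ∀ n, 0 < n → n ∈ C (χ n) := by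
      refine ⟨fun n => if h : 0 < n then (hcov n h).choose else i₁, fun n hn => ?_⟩
      simp only [hn, dif_pos]
      exact (hcov n hn).choose_spec
    obtain ⟨c, hc⟩ := mono_all k χ
    refine ⟨c, fun q hq N => ?_⟩
    obtain ⟨S, hS, hw⟩ := hc q hq N
    refine ⟨S, ?_, ?_, fun a ha => (hS a ha).1, hw.symm⟩
    · rw [Finset.nonempty_iff_ne_empty]
      rintro rfl
      rw [Finset.sum_empty] at hw
      exact hq.ne hw
    · intro a ha
      obtain ⟨h1, h2⟩ := hS a ha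
      rw [← h2]
      exact hχ a (by omega)
  have key2 : ∀ (k : ℕ) (C : Fin k → Set ℕ), IsPartition C →
      ∃ i, ∀ q : ℚ, 0 < q → Rep (C i) q := by
    intro k C hC
    obtain ⟨i, hi⟩ := key k C hC
    refine ⟨i, fun q hq => ?_⟩
    obtain ⟨F, h1, h2, -, h4⟩ := hi q hq 0
    exact ⟨F, h1, h2, h4⟩
  refine ⟨key2, ?_⟩
  intro s hs k C hC
  obtain ⟨i, hi⟩ := key2 k C hC
  exact ⟨{i}, by simpa using hs, fun q hq => ⟨i, Finset.mem_singleton_self i, hi q hq⟩⟩


end Pool.Agent.Results.MP_54bae5_nt.EveryPartitionHasUniversalClass
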